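import Mathlib

/-!
# The closing argument

A one step bound in which the Hölder constant comes back with the factor `1/2` gives a Hölder bound.
-/

set_option autoImplicit false

open Set Filter Topology

namespace Pool.Agent.H32.PR

theorem abs_holder {m : ℝ → ℝ} {R ρ₁ α L : ℝ} (hα : 0 < α) (hρ₁ : 0 < ρ₁) (hR : ρ₁ ≤ R)
    (hL : 0 ≤ L) (hm0 : ∀ σ, 0 < σ → 0 ≤ m σ)
    (hmono : ∀ σ τ, 0 < σ → σ ≤ τ → τ ≤ R → m σ ≤ m τ)
    (hlim : ∀ η > 0, ∃ ε₀ > 0, ∀ ε, 0 < ε → ε ≤ ε₀ → m ε ≤ η)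
    (hstep : ∀ ε B : ℝ, 0 < ε → ε ≤ R → 0 ≤ B →
      (∀ σ, 0 < σ → σ ≤ R → m σ ≤ m ε + B * σ ^ α) →
      ∀ ρ, 0 < ρ → ρ ≤ ρ₁ → m ρ ≤ m ε + (L + B / 2) * ρ ^ α) :
    ∀ ρ, 0 < ρ → ρ ≤ R → m ρ ≤ (2 * L + m R / ρ₁ ^ α) * ρ ^ α := by
  have hR0 : 0 < R := hρ₁.trans_le hR
  have hmR : 0 ≤ m R := hm0 R hR0
  have hρα : 0 < ρ₁ ^ α := Real.rpow_pos_of_pos hρ₁ α
  set Bs : ℝ := 2 * L + m R / ρ₁ ^ α with hBs
  have hBs0 : 0 ≤ Bs := by positivity
  -- for one ε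
  have key : ∀ ε, 0 < ε → ε ≤ R → ∀ σ, 0 < σ → σ ≤ R → m σ ≤ m ε + Bs * σ ^ α := by
    intro ε hε hεR
    set S : Set ℝ := {B | Bs ≤ B ∧ ∀ σ, 0 < σ → σ ≤ R → m σ ≤ m ε + B * σ ^ α} with hS
    have hεα : 0 < ε ^ α := Real.rpow_pos_of_pos hε α
    have hne : S.Nonempty := by
      refine ⟨max Bs (m R / ε ^ α), le_max_left _ _, fun σ hσ hσR => ?_⟩
      have hσα : 0 < σ ^ α := Real.rpow_pos_of_pos hσ α
      rcases le_total σ ε with h | h
      · have h1 := hmono σ ε hσ h hεR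
        have h2 : 0 ≤ max Bs (m R / ε ^ α) * σ ^ α :=
          mul_nonneg (hBs0.trans (le_max_left _ _)) hσα.le
        linarith
      · have h1 := hmono σ R hσ hσR le_rfl
        have h2 : ε ^ α ≤ σ ^ α := Real.rpow_le_rpow hε.le h hα.le
        have h3 : m R ≤ m R / ε ^ α * σ ^ α := by
          rw [div_mul_eq_mul_div, le_div_iff₀ hεα]
          exact mul_le_mul_of_nonneg_left h2 hmR
        have h4 : m R / ε ^ α * σ ^ α ≤ max Bs (m R / ε ^ α) * σ ^ α :=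
          mul_le_mul_of_nonneg_right (le_max_right _ _) hσα.le
        linarith [hm0 ε hε]
    have hbdd : BddBelow S := ⟨Bs, fun B hB => hB.1⟩
    have hI : Bs ≤ sInf S := le_csInf hne fun B hB => hB.1
    have hIv : ∀ σ, 0 < σ → σ ≤ R → m σ ≤ m ε + sInf S * σ ^ α := by
      intro σ hσ hσR
      have hσα : 0 < σ ^ α := Real.rpow_pos_of_pos hσ α
      have h1 : (m σ - m ε) / σ ^ α ≤ sInf S := by
        refine le_csInf hne fun B hB => ?_
        rw [div_le_iff₀ hσα]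
        linarith [hB.2 σ hσ hσR]
      rw [div_le_iff₀ hσα] at h1
      linarith
    have hJ : (Bs + sInf S) / 2 ∈ S := by
      refine ⟨by linarith, fun σ hσ hσR => ?_⟩
      have hσα : 0 < σ ^ α := Real.rpow_pos_of_pos hσ α
      rcases le_total σ ρ₁ with h | h
      · refine (hstep ε (sInf S) hε hεR (hBs0.trans hI) hIv σ hσ h).trans ?_
        have h1 : L + sInf S / 2 ≤ (Bs + sInf S) / 2 := by
          have h2 : 0 ≤ m R / ρ₁ ^ α := by positivity
          rw [hBs]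
          linarith
        have h3 := mul_le_mul_of_nonneg_right h1 hσα.le
        linarith
      · have h1 := hmono σ R hσ hσR le_rfl
        have h2 : ρ₁ ^ α ≤ σ ^ α := Real.rpow_le_rpow hρ₁.le h hα.le
        have h3 : m R ≤ m R / ρ₁ ^ α * σ ^ α := by
          rw [div_mul_eq_mul_div, le_div_iff₀ hρα]
          exact mul_le_mul_of_nonneg_left h2 hmR
        have h4 : m R / ρ₁ ^ α * σ ^ α ≤ (Bs + sInf S) / 2 * σ ^ α := by
          refine mul_le_mul_of_nonneg_right ?_ hσα.le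
          have h5 : m R / ρ₁ ^ α ≤ Bs := by rw [hBs]; linarith
          linarith
        linarith [hm0 ε hε]
    have hfin : sInf S ≤ (Bs + sInf S) / 2 := csInf_le hbdd hJ
    have hIe : sInf S = Bs := le_antisymm (by linarith) hI
    intro σ hσ hσR
    have h := hIv σ hσ hσR
    rwa [hIe] at h
  intro ρ hρ hρR
  refine le_of_forall_pos_le_add fun η hη => ?_
  obtain ⟨ε₀, hε₀, hlim'⟩ := hlim η hη
  have h1 := key (min ε₀ R) (lt_min hε₀ hR0) (min_le_right _ _) ρ hρ hρR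
  have h2 := hlim' (min ε₀ R) (lt_min hε₀ hR0) (min_le_left _ _)
  linarith

end Pool.Agent.H32.PR
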