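import Pool.Agent.H32.PR.Glob

/-!
# Closures of `C^1` domains have interior cones
-/

set_option autoImplicit false

open Set Filter Topology Metric Complex Pool.Agent.H40.Pluri

namespace Pool.Agent.H32.PR

variable {X : Type*} [NormedAddCommGroup X] [InnerProductSpace ℂ X]

/-- the cone condition on one side of a hypersurface -/
private lemma one_side {M E : Set X} {q : X} {U : Set X} (hU : IsOpen U) (hqU : q ∈ U) {r : X → ℝ}
    {r' : X →L[ℝ] ℝ} (hr : HasStrictFDerivAt r r' q) {v : X} (hv : 0 < r' v)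
    (hcl : ∀ p ∈ E ∩ U, 0 ≤ r p) (hin : ∀ z ∈ M ∩ U, 0 < r z → z ∈ E) :
    ∃ c : ℝ, 0 < c ∧ ∃ U' : Set X, IsOpen U' ∧ q ∈ U' ∧
      ∀ p ∈ E ∩ U', ∀ z ∈ M ∩ U', ∀ s : ℝ, 0 < s → ‖z - p - (s : ℂ) • v‖ < c * s → z ∈ E := by
  obtain ⟨m, hm⟩ : ∃ m, m = r' v := ⟨_, rfl⟩
  have hm0 : 0 < m := hm ▸ hv
  obtain ⟨n, hn⟩ : ∃ n, n = ‖r'‖ := ⟨_, rfl⟩
  have hn0 : 0 ≤ n := hn ▸ norm_nonneg _
  obtain ⟨c, hc⟩ : ∃ c, c = m / (4 * (n + 1)) := ⟨_, rfl⟩
  have hc0 : 0 < c := by rw [hc]; positivity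
  have hnc : n * c ≤ m / 4 := by
    have h1 : (n + 1) * c = m / 4 := by rw [hc]; field_simp
    nlinarith
  obtain ⟨ε, hε⟩ : ∃ ε, ε = m / (4 * (‖v‖ + c)) := ⟨_, rfl⟩
  have hvc : 0 < ‖v‖ + c := by positivity
  have hε0 : 0 < ε := by rw [hε]; positivity
  have hεc : ε * (‖v‖ + c) = m / 4 := by rw [hε]; field_simp
  have h1 := hr.isLittleO.def hε0
  obtain ⟨δ, hδ, h2⟩ := Metric.eventually_nhds_iff_ball.1 h1
  refine ⟨c, hc0, U ∩ ball q δ, hU.inter isOpen_ball, ⟨hqU, mem_ball_self hδ⟩, ?_⟩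
  rintro p ⟨hpE, hpU, hpb⟩ z ⟨hzM, hzU, hzb⟩ s hs hn'
  apply hin z ⟨hzM, hzU⟩
  have h3 := h2 (z, p) (by
    rw [← ball_prod_same]
    exact ⟨hzb, hpb⟩)
  simp only at h3
  obtain ⟨w, hw⟩ : ∃ w, w = z - p - (s : ℂ) • v := ⟨_, rfl⟩
  rw [← hw] at hn'
  have h4 : z - p = s • v + w := by rw [hw, Complex.coe_smul]; abel
  rw [h4, map_add, map_smul, smul_eq_mul, ← hm] at h3
  have h5 : |r' w| ≤ n * (c * s) := by
    have := r'.le_opNorm w
    rw [Real.norm_eq_abs, ← hn] at this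
    exact this.trans (mul_le_mul_of_nonneg_left hn'.le hn0)
  have h6 : ‖s • v + w‖ ≤ (‖v‖ + c) * s := by
    refine (norm_add_le _ _).trans ?_
    rw [norm_smul, Real.norm_eq_abs, abs_of_pos hs]
    nlinarith
  have h7 : ‖r z - r p - (s * m + r' w)‖ ≤ m / 4 * s := by
    refine h3.trans ?_
    have := mul_le_mul_of_nonneg_left h6 hε0.le
    rw [← mul_assoc, hεc] at this
    exact this
  rw [Real.norm_eq_abs] at h7
  have h8 := (abs_le.1 h7).1
  have h9 := (abs_le.1 h5).1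
  have h10 := hcl p ⟨hpE, hpU⟩
  have h11 := mul_le_mul_of_nonneg_right hnc hs.le
  have h12 : 0 < m * s := mul_pos hm0 hs
  nlinarith

private lemma smul_tangent {M : Set X} {q v : X} (hv : v ∈ tangentVectors M q) (σ : ℝ) :
    σ • v ∈ tangentVectors M q := by
  obtain ⟨γ, hγ0, hγM, hγd⟩ := hv
  have hl : HasDerivAt (fun t : ℝ => σ * t) σ 0 := by
    simpa using (hasDerivAt_id (0 : ℝ)).const_mul σ
  have ht : Tendsto (fun t : ℝ => σ * t) (𝓝 0) (𝓝 0) := by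
    have := hl.continuousAt.tendsto
    rwa [mul_zero] at this
  refine ⟨fun t => γ (σ * t), by show γ (σ * 0) = q; rw [mul_zero, hγ0], ht.eventually hγM, ?_⟩
  have h1 : HasDerivAt γ v (σ * 0) := by rw [mul_zero]; exact hγd
  exact h1.scomp 0 hl

variable [FiniteDimensional ℂ X]

/-- the closure of a domain with `C^1` boundary in a submanifold has interior cones -/
theorem hasCones_closure {M D : Set X} {m : ℕ} (hm : 1 ≤ m) (hM : IsSubmanifold m M)
    (hD : IsC1Domain M D) : HasCones M (closure D) := by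
  intro q hq
  have hqM : q ∈ M := hD.closure_subset hq
  obtain ⟨O, hO, hDO⟩ := hD.isOpen_in
  have hzero : (0 : X) ∈ tangentVectors M q :=
    ⟨fun _ => q, rfl, Eventually.of_forall fun _ => hqM, hasDerivAt_const _ _⟩
  by_cases hqD : q ∈ D
  · refine ⟨0, hzero, 1, one_pos, O, hO, ?_, ?_⟩
    · rw [hDO] at hqD
      exact hqD.1
    · rintro p _ z ⟨hzM, hzO⟩ s _ _
      apply subset_closure
      rw [hDO]
      exact ⟨hzO, hzM⟩
  · obtain ⟨k, ρ, U₁, hU₁, hqU₁, hρ, hsurj, hMU⟩ := hM q hqM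
    have hρ1 : ContDiffOn ℝ 1 ρ U₁ := hρ.of_le (by exact_mod_cast hm)
    have hρd : DifferentiableAt ℝ ρ q :=
      ((hρ1.contDiffAt (hU₁.mem_nhds hqU₁)).differentiableAt one_ne_zero)
    have htan : ∀ v ∈ tangentVectors M q, fderiv ℝ ρ q v = 0 := fun v hv =>
      fderiv_tangent hU₁ hqU₁ hρd hMU hv
    have hMU' : ∀ z ∈ U₁, z ∈ M ↔ ρ z = 0 := by
      intro z hz
      constructor
      · intro h
        have : z ∈ M ∩ U₁ := ⟨h, hz⟩
        rw [hMU] at this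
        exact this.2
      · intro h
        have : z ∈ {z | z ∈ U₁ ∧ ρ z = 0} := ⟨hz, h⟩
        rw [← hMU] at this
        exact this.1
    obtain ⟨U₂, r, hU₂, hqU₂, hr, hbd, v, hv, hrv⟩ := hD.boundary q ⟨hq, hqD⟩
    have hbd1 : ∀ z ∈ U₂, z ∈ M → r z = 0 → z ∈ closure D \ D := by
      intro z hz hzM hrz
      have : z ∈ {z | z ∈ M ∩ U₂ ∧ r z = 0} := ⟨⟨hzM, hz⟩, hrz⟩
      rw [← hbd] at this
      exact this.1
    have hbd2 : ∀ z ∈ U₂, z ∈ closure D → r z ≠ 0 → z ∈ D := by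
      intro z hz hzc hrz
      by_contra hzD
      apply hrz
      have : z ∈ (closure D \ D) ∩ U₂ := ⟨⟨hzc, hzD⟩, hz⟩
      rw [hbd] at this
      exact this.2
    have hrq : r q = 0 := by
      have : q ∈ (closure D \ D) ∩ U₂ := ⟨⟨hq, hqD⟩, hqU₂⟩
      rw [hbd] at this
      exact this.2
    have hU : IsOpen (U₁ ∩ U₂) := hU₁.inter hU₂
    have hqU : q ∈ U₁ ∩ U₂ := ⟨hqU₁, hqU₂⟩
    have hrs : HasStrictFDerivAt r (fderiv ℝ r q) q :=
      (hr.contDiffAt (hU₂.mem_nhds hqU₂)).hasStrictFDerivAt one_ne_zero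
    obtain ⟨V, g, Λ, a, ha, hgC, hgU, hcov, -, -⟩ := chart q (U₁ ∩ U₂) hU hqU ρ
      (hρ1.mono inter_subset_left) ((hMU' q hqU₁).1 hqM) (hsurj q hqU₁) r
      (hr.mono inter_subset_right) hrq ⟨v, htan v hv, hrv⟩
    obtain ⟨W, hWq, hWo, hW⟩ := hcov a ha
    have hqW : q ∈ W := mem_of_mem_nhds hWq
    have hgc : ContinuousOn g (ball 0 a) := fun s hs =>
      (hgC s hs).continuousAt.continuousWithinAt
    have hgM : ∀ s ∈ ball (0 : ℝ × V) a, g s ∈ U₁ ∩ U₂ ∧ g s ∈ M ∧ r (g s) = s.1 := by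
      intro s hs
      obtain ⟨h1, h2, h3⟩ := hgU s hs
      exact ⟨h1, (hMU' _ h1.1).2 h2, h3⟩
    have hside := side M D O (U₁ ∩ U₂) hO hDO r (fun z hz => hbd2 z hz.2) g a hgc hgM
    -- the sides in terms of points of the manifold
    have hcovM : ∀ z ∈ M ∩ (W ∩ (U₁ ∩ U₂)), ∃ s ∈ ball (0 : ℝ × V) a, g s = z ∧ s.1 = r z := by
      rintro z ⟨hzM, hzW, hzU⟩
      obtain ⟨s, hs, hsz⟩ := hW z hzW ((hMU' z hzU.1).1 hzM)
      exact ⟨s, hs, hsz, by rw [← hsz]; exact (hgM s hs).2.2.symm⟩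
    have hdich : ∀ η : ℝ, (∃ z ∈ M ∩ (W ∩ (U₁ ∩ U₂)), 0 < η * r z ∧ z ∈ D) →
        ∀ z ∈ M ∩ (W ∩ (U₁ ∩ U₂)), 0 < η * r z → z ∈ D := by
      rintro η ⟨z₀, hz₀, hr₀, hz₀D⟩ z hz hrz
      obtain ⟨s₀, hs₀, hs₀z, hs₀r⟩ := hcovM z₀ hz₀
      obtain ⟨s, hs, hsz, hsr⟩ := hcovM z hz
      rw [← hsz]
      exact hside η ⟨s₀, hs₀, by rw [hs₀r]; exact hr₀, by rw [hs₀z]; exact hz₀D⟩ s hs
        (by rw [hsr]; exact hrz)
    have hWU : IsOpen (W ∩ (U₁ ∩ U₂)) := hWo.inter hU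
    have hqWU : q ∈ W ∩ (U₁ ∩ U₂) := ⟨hqW, hqU⟩
    by_cases hA : ∃ z ∈ M ∩ (W ∩ (U₁ ∩ U₂)), 0 < 1 * r z ∧ z ∈ D
    · by_cases hB : ∃ z ∈ M ∩ (W ∩ (U₁ ∩ U₂)), 0 < -1 * r z ∧ z ∈ D
      · refine ⟨0, hzero, 1, one_pos, W ∩ (U₁ ∩ U₂), hWU, hqWU, ?_⟩
        rintro p _ z hz s _ _
        rcases lt_trichotomy (r z) 0 with h0 | h0 | h0
        · exact subset_closure (hdich _ hB z hz (by linarith))
        · exact (hbd1 z hz.2.2.2 hz.1 h0).1
        · exact subset_closure (hdich _ hA z hz (by linarith))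
      · -- only the positive side
        obtain ⟨σ, hσ⟩ : ∃ σ : ℝ, 0 < fderiv ℝ r q (σ • v) ∧ σ • v ∈ tangentVectors M q := by
          refine ⟨fderiv ℝ r q v, ?_, ?_⟩
          · rw [map_smul, smul_eq_mul]
            exact mul_self_pos.2 hrv
          · exact smul_tangent hv _
        obtain ⟨c, hc, U', hU', hqU', h⟩ := one_side (M := M) (E := closure D) hWU hqWU hrs hσ.1
          (by
            rintro p ⟨hpE, hpW⟩
            by_contra hcon
            push Not at hcon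
            exact hB ⟨p, ⟨hD.closure_subset hpE, hpW⟩, by linarith,
              hbd2 p hpW.2.2 hpE hcon.ne⟩)
          (fun z hz hrz => subset_closure (hdich _ hA z hz (by linarith)))
        exact ⟨σ • v, hσ.2, c, hc, U', hU', hqU', h⟩
    · by_cases hB : ∃ z ∈ M ∩ (W ∩ (U₁ ∩ U₂)), 0 < -1 * r z ∧ z ∈ D
      · obtain ⟨σ, hσ⟩ : ∃ σ : ℝ, 0 < (-fderiv ℝ r q) (σ • v) ∧ σ • v ∈ tangentVectors M q := by
          refine ⟨-fderiv ℝ r q v, ?_, ?_⟩
          · rw [map_smul, smul_eq_mul, neg_apply]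
            nlinarith [mul_self_pos.2 hrv]
          · exact smul_tangent hv _
        obtain ⟨c, hc, U', hU', hqU', h⟩ := one_side (M := M) (E := closure D) hWU hqWU hrs.neg hσ.1
          (by
            rintro p ⟨hpE, hpW⟩
            by_contra hcon
            push Not at hcon
            have hcon' : 0 < r p := by
              have : -r p < 0 := hcon
              linarith
            exact hA ⟨p, ⟨hD.closure_subset hpE, hpW⟩, by linarith,
              hbd2 p hpW.2.2 hpE hcon'.ne'⟩)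
          (fun z hz hrz => subset_closure (hdich _ hB z hz (by
            have : 0 < -r z := hrz
            linarith)))
        exact ⟨σ • v, hσ.2, c, hc, U', hU', hqU', h⟩
      · -- impossible
        exfalso
        obtain ⟨z, hzW, hzD⟩ := mem_closure_iff_nhds.1 hq (W ∩ (U₁ ∩ U₂)) (hWU.mem_nhds hqWU)
        have hzM : z ∈ M := hD.closure_subset (subset_closure hzD)
        rcases lt_trichotomy (r z) 0 with h0 | h0 | h0
        · exact hB ⟨z, ⟨hzM, hzW⟩, by linarith, hzD⟩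
        · exact (hbd1 z hzW.2.2 hzM h0).2 hzD
        · exact hA ⟨z, ⟨hzM, hzW⟩, by linarith, hzD⟩

end Pool.Agent.H32.PR
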