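import Mathlib

/-!
# Perturbation of generic tangent spaces

If `A₀ : X → F` is onto and `X = ker A₀ + i ker A₀`, the same holds, with uniform constants, for every `A` near `A₀`, and there is a linear map `P` into `ker A` which is close to the identity on `ker A₀`.
-/

set_option autoImplicit false

open Set Filter Topology Metric Complex

namespace Pool.Agent.H32.PR

variable {X : Type*} [NormedAddCommGroup X] [InnerProductSpace ℂ X] [FiniteDimensional ℂ X]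
  {F : Type*} [NormedAddCommGroup F] [NormedSpace ℝ F] [FiniteDimensional ℝ F]

theorem tangent_perturb (A₀ : X →L[ℝ] F) (hsurj : Function.Surjective A₀)
    (hgen : ∀ w : X, ∃ v₁ v₂ : X, A₀ v₁ = 0 ∧ A₀ v₂ = 0 ∧ w = v₁ + I • v₂) :
    ∃ C₁ η₁ : ℝ, 0 < C₁ ∧ 0 < η₁ ∧ ∀ (A : X →L[ℝ] F) (η : ℝ), ‖A - A₀‖ ≤ η → η ≤ η₁ →
      ∃ P : X →ₗ[ℝ] X, (∀ v, A (P v) = 0) ∧ (∀ v, A₀ v = 0 → ‖P v - v‖ ≤ C₁ * η * ‖v‖) ∧
        ∀ w : X, ∃ x y : X, A x = 0 ∧ A y = 0 ∧ w = x + I • y ∧ ‖x‖ ≤ C₁ * ‖w‖ ∧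
          ‖y‖ ≤ C₁ * ‖w‖ := by
  have hfd : FiniteDimensional ℝ X := FiniteDimensional.complexToReal X
  obtain ⟨R₀', hR₀'⟩ := A₀.toLinearMap.exists_rightInverse_of_surjective
    (LinearMap.range_eq_top.2 hsurj)
  set R₀ : F →L[ℝ] X := LinearMap.toContinuousLinearMap R₀' with hR₀
  have hAR : ∀ h, A₀ (R₀ h) = h := fun h => LinearMap.congr_fun hR₀' h
  set K : Submodule ℝ X := LinearMap.ker A₀.toLinearMap with hK
  have hmK : ∀ v, v ∈ K ↔ A₀ v = 0 := fun v => LinearMap.mem_ker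
  -- the map (a, b) ↦ a + i b
  set J : X →ₗ[ℝ] X := (LinearMap.lsmul ℂ X I).restrictScalars ℝ with hJ
  have hJ' : ∀ w, J w = I • w := fun w => rfl
  set L : (K × K) →ₗ[ℝ] X := K.subtype.comp (LinearMap.fst ℝ K K) +
    (J.comp K.subtype).comp (LinearMap.snd ℝ K K) with hL
  have hL' : ∀ w : K × K, L w = (w.1 : X) + I • (w.2 : X) := fun w => rfl
  have hLs : Function.Surjective L := by
    intro w
    obtain ⟨v₁, v₂, h1, h2, h3⟩ := hgen w
    exact ⟨(⟨v₁, (hmK _).2 h1⟩, ⟨v₂, (hmK _).2 h2⟩), by rw [hL', h3]⟩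
  obtain ⟨R', hR'⟩ := L.exists_rightInverse_of_surjective (LinearMap.range_eq_top.2 hLs)
  set R : X →L[ℝ] K × K := LinearMap.toContinuousLinearMap R' with hR
  have hRw : ∀ w, ((R w).1 : X) + I • ((R w).2 : X) = w := fun w => LinearMap.congr_fun hR' w
  set N : ℝ := ‖R₀‖ with hN
  set N' : ℝ := ‖R‖ with hN'
  have hN0 : 0 ≤ N := norm_nonneg _
  have hN'0 : 0 ≤ N' := norm_nonneg R
  have hfst : ∀ w, ‖((R w).1 : X)‖ ≤ N' * ‖w‖ := fun w =>
    (norm_fst_le (R w)).trans (R.le_opNorm w)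
  have hsnd : ∀ w, ‖((R w).2 : X)‖ ≤ N' * ‖w‖ := fun w =>
    (norm_snd_le (R w)).trans (R.le_opNorm w)
  refine ⟨2 * N + 4 * N' + 1, 1 / (2 * N + 8 * N * N' + 1), by positivity, by positivity, ?_⟩
  intro A η hA hη
  have hη0 : 0 ≤ η := (norm_nonneg _).trans hA
  rw [le_div_iff₀ (by positivity)] at hη
  have hNN : 0 ≤ N * N' := mul_nonneg hN0 hN'0
  have h1 : η * N ≤ 1 / 2 := by nlinarith [mul_nonneg hη0 hN0, mul_nonneg hη0 hNN]
  have h2 : η * (N * N') ≤ 1 / 8 := by nlinarith [mul_nonneg hη0 hN0, mul_nonneg hη0 hNN]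
  -- `A ∘ R₀` is invertible
  have hest : ∀ h : F, ‖h‖ ≤ 2 * ‖A (R₀ h)‖ := by
    intro h
    have h3 : h = A (R₀ h) - (A - A₀) (R₀ h) := by
      rw [sub_apply, hAR]; abel
    have h4 : ‖(A - A₀) (R₀ h)‖ ≤ η * (N * ‖h‖) :=
      ((A - A₀).le_opNorm _).trans (mul_le_mul hA (R₀.le_opNorm h) (norm_nonneg _) hη0)
    have h5 : ‖h‖ ≤ ‖A (R₀ h)‖ + η * (N * ‖h‖) := by
      calc ‖h‖ = ‖A (R₀ h) - (A - A₀) (R₀ h)‖ := by rw [← h3]
        _ ≤ ‖A (R₀ h)‖ + ‖(A - A₀) (R₀ h)‖ := norm_sub_le _ _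
        _ ≤ _ := by linarith
    nlinarith [mul_le_mul_of_nonneg_right h1 (norm_nonneg h)]
  set Q₀ : F →ₗ[ℝ] F := A.toLinearMap.comp R₀.toLinearMap with hQ₀
  have hQ₀' : ∀ h, Q₀ h = A (R₀ h) := fun h => rfl
  have hQinj : Function.Injective Q₀ := by
    rw [injective_iff_map_eq_zero]
    intro h hh
    have h3 := hest h
    rw [← hQ₀', hh, norm_zero, mul_zero] at h3
    exact norm_le_zero_iff.1 h3
  set Q : F ≃ₗ[ℝ] F := LinearEquiv.ofInjectiveEndo Q₀ hQinj with hQ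
  have hQs : ∀ g, A (R₀ (Q.symm g)) = g := fun g => Q.apply_symm_apply g
  set P : X →ₗ[ℝ] X := LinearMap.id - (R₀.toLinearMap.comp (Q.symm.toLinearMap.comp
    A.toLinearMap)) with hP
  have hP' : ∀ v, P v = v - R₀ (Q.symm (A v)) := fun v => rfl
  have hAP : ∀ v, A (P v) = 0 := by
    intro v
    rw [hP', map_sub, hQs, sub_self]
  have hPv : ∀ v, A₀ v = 0 → ‖P v - v‖ ≤ 2 * N * η * ‖v‖ := by
    intro v hv
    have h3 : P v - v = -R₀ (Q.symm (A v)) := by rw [hP']; abel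
    have h4 : ‖A v‖ ≤ η * ‖v‖ := by
      have h5 : A v = (A - A₀) v := by rw [sub_apply, hv, sub_zero]
      rw [h5]
      exact ((A - A₀).le_opNorm v).trans (mul_le_mul_of_nonneg_right hA (norm_nonneg v))
    have h6 : ‖Q.symm (A v)‖ ≤ 2 * ‖A v‖ := by
      have h7 := hest (Q.symm (A v))
      rwa [hQs] at h7
    rw [h3, norm_neg]
    calc ‖R₀ (Q.symm (A v))‖ ≤ N * ‖Q.symm (A v)‖ := R₀.le_opNorm _
      _ ≤ N * (2 * (η * ‖v‖)) := by gcongr; linarith
      _ = 2 * N * η * ‖v‖ := by ring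
  refine ⟨P, hAP, fun v hv => ?_, fun w => ?_⟩
  · refine (hPv v hv).trans ?_
    have : 0 ≤ η * ‖v‖ := mul_nonneg hη0 (norm_nonneg v)
    nlinarith [mul_nonneg hN'0 this]
  · -- the perturbed decomposition
    set S : X →ₗ[ℝ] X := P.comp ((K.subtype.comp (LinearMap.fst ℝ K K)).comp R.toLinearMap) +
      (J.comp P).comp ((K.subtype.comp (LinearMap.snd ℝ K K)).comp R.toLinearMap) with hS
    have hS' : ∀ w, S w = P (R w).1 + I • P (R w).2 := fun w => rfl
    have hb1 : ∀ w, ‖P (R w).1 - (R w).1‖ ≤ 2 * η * (N * N') * ‖w‖ := by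
      intro w
      have h3 := hPv _ ((hmK _).1 (R w).1.2)
      have h4 := mul_le_mul_of_nonneg_left (hfst w) (by positivity : 0 ≤ 2 * N * η)
      linarith
    have hb2 : ∀ w, ‖P (R w).2 - (R w).2‖ ≤ 2 * η * (N * N') * ‖w‖ := by
      intro w
      have h3 := hPv _ ((hmK _).1 (R w).2.2)
      have h4 := mul_le_mul_of_nonneg_left (hsnd w) (by positivity : 0 ≤ 2 * N * η)
      linarith
    have hSw : ∀ w, ‖S w - w‖ ≤ 1 / 2 * ‖w‖ := by
      intro w
      have h3 : S w - w = (P (R w).1 - (R w).1) + I • (P (R w).2 - (R w).2) := by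
        have h0 := hRw w
        rw [hS', smul_sub]
        rw [show P (R w).1 - ((R w).1 : X) + (I • P (R w).2 - I • ((R w).2 : X)) =
          P (R w).1 + I • P (R w).2 - (((R w).1 : X) + I • ((R w).2 : X)) by abel, h0]
      rw [h3]
      refine (norm_add_le _ _).trans ?_
      rw [norm_smul, norm_I, one_mul]
      have h4 := hb1 w
      have h5 := hb2 w
      have h6 := mul_le_mul_of_nonneg_right h2 (norm_nonneg w)
      linarith
    have hinj : Function.Injective S := by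
      rw [injective_iff_map_eq_zero]
      intro w hw
      have h1 := hSw w
      rw [hw, zero_sub, norm_neg] at h1
      have : ‖w‖ ≤ 0 := by linarith
      exact norm_le_zero_iff.1 this
    have hsj : Function.Surjective S := (LinearMap.injective_iff_surjective (f := S)).1 hinj
    obtain ⟨w', hw'⟩ := hsj w
    have h3 : ‖w'‖ ≤ 2 * ‖w‖ := by
      have h2 := hSw w'
      have h3 : ‖w'‖ ≤ ‖S w'‖ + ‖S w' - w'‖ := by
        have := norm_sub_le (S w') (S w' - w')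
        simpa using this
      rw [hw'] at h3 h2
      linarith
    have hfin : ∀ a : X, A₀ a = 0 → ‖a‖ ≤ N' * ‖w'‖ →
        ‖P a‖ ≤ (2 * N + 4 * N' + 1) * ‖w‖ := by
      intro a ha hna
      have h4 := hPv a ha
      have h5 : ‖P a‖ ≤ ‖P a - a‖ + ‖a‖ := by
        have := norm_add_le (P a - a) a
        rwa [sub_add_cancel] at this
      have h6 : 2 * N * η * ‖a‖ ≤ ‖a‖ := by
        nlinarith [mul_le_mul_of_nonneg_right h1 (norm_nonneg a)]
      have h7 : N' * ‖w'‖ ≤ N' * (2 * ‖w‖) := mul_le_mul_of_nonneg_left h3 hN'0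
      nlinarith [mul_nonneg hN0 (norm_nonneg w), norm_nonneg w]
    refine ⟨P (R w').1, P (R w').2, hAP _, hAP _, by rw [← hS', hw'], ?_, ?_⟩
    · exact hfin _ ((hmK _).1 (R w').1.2) (hfst w')
    · exact hfin _ ((hmK _).1 (R w').2.2) (hsnd w')

end Pool.Agent.H32.PR
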