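import Pool.Agent.H32.PR.Hol
import Pool.Agent.H32.PR.Tan

/-!
# Cones of a compact subset of a generic manifold

`FlatAt`: the property `Flat` at one point. `core`: near a point `q` of `M`, interior cones of `E` in `M` give generic cones in the tangent spaces, with an error controlled by the oscillation of the derivative of the defining function.
-/

set_option autoImplicit false

open Set Filter Topology Metric Complex Pool.Agent.H40.Pluri

namespace Pool.Agent.H32.PR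

variable {X : Type*} [NormedAddCommGroup X] [InnerProductSpace ℂ X]

/-- generic cones of `E` at the point `p` -/
def FlatAt (E : Set X) (p : X) (C e δ : ℝ) (err : ℝ → ℝ) : Prop :=
  ∃ (T : Submodule ℝ X) (ν : X), ‖ν‖ ≤ C ∧
    (∀ w : X, ∃ x ∈ T, ∃ y ∈ T, w = x + I • y ∧ ‖x‖ ≤ C * ‖w‖ ∧ ‖y‖ ≤ C * ‖w‖) ∧
    ∀ t : ℝ, 0 ≤ t → t ≤ δ → ∀ f ∈ T, ‖f‖ ≤ e * t → ∃ q ∈ E, ‖p + (t : ℂ) • ν + f - q‖ ≤ err t

lemma FlatAt.mono {E : Set X} {p : X} {C C' e e' δ δ' : ℝ} {err err' : ℝ → ℝ}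
    (h : FlatAt E p C e δ err) (hC : C ≤ C') (he : e' ≤ e) (hδ : δ' ≤ δ)
    (herr : ∀ t, 0 ≤ t → t ≤ δ' → err t ≤ err' t) : FlatAt E p C' e' δ' err' := by
  obtain ⟨T, ν, h1, h2, h3⟩ := h
  refine ⟨T, ν, h1.trans hC, fun w => ?_, fun t ht htδ f hf hfn => ?_⟩
  · obtain ⟨x, hx, y, hy, hw, hxn, hyn⟩ := h2 w
    exact ⟨x, hx, y, hy, hw, hxn.trans (mul_le_mul_of_nonneg_right hC (norm_nonneg _)),
      hyn.trans (mul_le_mul_of_nonneg_right hC (norm_nonneg _))⟩
  · obtain ⟨q, hq, hqn⟩ := h3 t ht (htδ.trans hδ) f hf (hfn.trans (mul_le_mul_of_nonneg_right he ht))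
    exact ⟨q, hq, hqn.trans (herr t ht htδ)⟩

variable [FiniteDimensional ℂ X] {F : Type*} [NormedAddCommGroup F] [NormedSpace ℝ F]
  [FiniteDimensional ℝ F]

/-- points of `{ρ = 0}` near a point at which `ρ` is small (Lyusternik–Graves) -/
lemma near_zero {ρ : X → F} {U : Set X} {q : X} (hU : IsOpen U) (hqU : q ∈ U)
    (hρ : ContDiffOn ℝ 1 ρ U) (hsurj : Function.Surjective (fderiv ℝ ρ q)) {η₁ : ℝ}
    (hη₁ : 0 < η₁) :
    ∃ a N : ℝ, 0 < a ∧ 0 < N ∧ ball q (2 * a) ⊆ U ∧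
      (∀ x ∈ ball q (2 * a), ‖fderiv ℝ ρ x - fderiv ℝ ρ q‖ ≤ η₁) ∧
      ∀ y ∈ ball q a, N * ‖ρ y‖ < a → ∃ z ∈ U, ρ z = 0 ∧ ‖z - y‖ ≤ N * ‖ρ y‖ := by
  have : CompleteSpace X := FiniteDimensional.complete ℂ X
  have : CompleteSpace F := FiniteDimensional.complete ℝ F
  set A : X →L[ℝ] F := fderiv ℝ ρ q with hA
  set inv := A.nonlinearRightInverseOfSurjective (LinearMap.range_eq_top.2 hsurj) with hinv
  have hpos : 0 < inv.nnnorm :=
    A.nonlinearRightInverseOfSurjective_nnnorm_pos (LinearMap.range_eq_top.2 hsurj)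
  have hposR : (0 : ℝ) < inv.nnnorm := hpos
  set η : ℝ := min η₁ ((inv.nnnorm : ℝ)⁻¹ / 2) with hη
  have hη0 : 0 < η := by positivity
  have hcd : ∀ x ∈ U, ContDiffAt ℝ 1 ρ x := fun x hx => hρ.contDiffAt (hU.mem_nhds hx)
  have hcont : ContinuousAt (fderiv ℝ ρ) q := by
    have := (hcd q hqU).fderiv_right (m := 0) (by simp)
    exact this.continuousAt
  obtain ⟨r, hr0, hr⟩ := Metric.eventually_nhds_iff_ball.1
    ((hcont.eventually (Metric.ball_mem_nhds _ hη0)).and (hU.mem_nhds hqU))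
  have hsub : ball q (2 * (r / 2)) ⊆ U := fun x hx => (hr x (by rwa [mul_div_cancel₀ r two_ne_zero] at hx)).2
  have hder : ∀ x ∈ ball q (2 * (r / 2)), ‖fderiv ℝ ρ x - A‖ ≤ η := by
    intro x hx
    have h1 := (hr x (by rwa [mul_div_cancel₀ r two_ne_zero] at hx)).1
    have h2 : dist (fderiv ℝ ρ x) (fderiv ℝ ρ q) < η := h1
    have h3 : dist (fderiv ℝ ρ x) (fderiv ℝ ρ q) = ‖fderiv ℝ ρ x - A‖ := dist_eq_norm _ _
    linarith
  have happ : ApproximatesLinearOn ρ A (ball q (2 * (r / 2))) ⟨η, hη0.le⟩ := by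
    intro x hx y hy
    exact (convex_ball q _).norm_image_sub_le_of_norm_hasFDerivWithin_le' (f' := fderiv ℝ ρ)
      (fun z hz => ((hcd z (hsub hz)).differentiableAt one_ne_zero).hasFDerivAt.hasFDerivWithinAt)
      hder hy hx
  refine ⟨r / 2, 2 * inv.nnnorm, by positivity, by positivity, hsub,
    fun x hx => (hder x hx).trans (min_le_left _ _), fun y hy hsm => ?_⟩
  have hε : closedBall y (2 * inv.nnnorm * ‖ρ y‖) ⊆ ball q (2 * (r / 2)) := by
    intro z hz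
    rw [mem_closedBall] at hz
    rw [mem_ball] at hy ⊢
    calc dist z q ≤ dist z y + dist y q := dist_triangle _ _ _
      _ < r / 2 + r / 2 := by linarith
      _ = 2 * (r / 2) := by ring
  have hsur := happ.surjOn_closedBall_of_nonlinearRightInverse inv (by positivity) hε
  have h0 : (0 : F) ∈ closedBall (ρ y) (((inv.nnnorm : ℝ)⁻¹ - ((⟨η, hη0.le⟩ : NNReal) : ℝ)) *
      (2 * inv.nnnorm * ‖ρ y‖)) := by
    rw [mem_closedBall, dist_eq_norm, zero_sub, norm_neg]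
    have h1 : ((⟨η, hη0.le⟩ : NNReal) : ℝ) ≤ (inv.nnnorm : ℝ)⁻¹ / 2 := min_le_right _ _
    have h2 : (inv.nnnorm : ℝ)⁻¹ / 2 ≤ (inv.nnnorm : ℝ)⁻¹ - ((⟨η, hη0.le⟩ : NNReal) : ℝ) := by
      linarith
    have h3 : (inv.nnnorm : ℝ)⁻¹ / 2 * (2 * inv.nnnorm * ‖ρ y‖) = ‖ρ y‖ := by
      field_simp
    have h4 := mul_le_mul_of_nonneg_right h2 (by positivity : 0 ≤ 2 * inv.nnnorm * ‖ρ y‖)
    linarith
  obtain ⟨z, hz, hz0⟩ := hsur h0
  refine ⟨z, hsub (hε hz), hz0, ?_⟩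
  rwa [mem_closedBall, dist_eq_norm] at hz

theorem core {M E : Set X} (hEM : E ⊆ M) {q : X} {U : Set X} (hU : IsOpen U) (hqU : q ∈ U)
    {ρ : X → F} (hρ : ContDiffOn ℝ 1 ρ U) (hMU : ∀ z ∈ U, z ∈ M ↔ ρ z = 0)
    (hsurj : Function.Surjective (fderiv ℝ ρ q))
    (hgen : ∀ w : X, ∃ v₁ v₂ : X, fderiv ℝ ρ q v₁ = 0 ∧ fderiv ℝ ρ q v₂ = 0 ∧ w = v₁ + I • v₂)
    {v : X} (hv : fderiv ℝ ρ q v = 0) {c : ℝ} (hc : 0 < c)
    (hcone : ∀ p ∈ E ∩ U, ∀ z ∈ M ∩ U, ∀ s : ℝ, 0 < s → ‖z - p - (s : ℂ) • v‖ < c * s → z ∈ E) :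
    ∃ C e a N δ : ℝ, 0 < C ∧ 0 < e ∧ 0 < a ∧ 0 < N ∧ 0 < δ ∧ C * δ ≤ a ∧ ball q (2 * a) ⊆ U ∧
      ∀ p ∈ E ∩ ball q a, ∃ (T : Submodule ℝ X) (ν : X), ‖ν‖ ≤ C ∧
        (∀ w : X, ∃ x ∈ T, ∃ y ∈ T, w = x + I • y ∧ ‖x‖ ≤ C * ‖w‖ ∧ ‖y‖ ≤ C * ‖w‖) ∧
        ∀ t η : ℝ, 0 ≤ t → t ≤ δ → 0 ≤ η → N * η ≤ c / 4 →
          (∀ x ∈ closedBall p (C * t), ‖fderiv ℝ ρ x - fderiv ℝ ρ p‖ ≤ η) →
          ∀ f ∈ T, ‖f‖ ≤ e * t → ∃ z ∈ E, ‖p + (t : ℂ) • ν + f - z‖ ≤ N * η * t := by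
  obtain ⟨C₁, η₁, hC₁, hη₁, hpert⟩ := tangent_perturb (fderiv ℝ ρ q) hsurj hgen
  obtain ⟨η₂, hη₂0, hη₂1, hη₂v⟩ : ∃ η₂ : ℝ, 0 < η₂ ∧ η₂ ≤ η₁ ∧ C₁ * η₂ * ‖v‖ ≤ c / 4 := by
    refine ⟨min η₁ (c / (4 * (C₁ * (‖v‖ + 1)))), by positivity, min_le_left _ _, ?_⟩
    have h1 : min η₁ (c / (4 * (C₁ * (‖v‖ + 1)))) ≤ c / (4 * (C₁ * (‖v‖ + 1))) := min_le_right _ _
    have hv0 := norm_nonneg v
    calc C₁ * min η₁ (c / (4 * (C₁ * (‖v‖ + 1)))) * ‖v‖
        ≤ C₁ * (c / (4 * (C₁ * (‖v‖ + 1)))) * (‖v‖ + 1) := by gcongr; linarith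
      _ = c / 4 := by field_simp
  obtain ⟨a₀, N₀, ha₀, hN₀, hball, hder, hzero⟩ := near_zero hU hqU hρ hsurj hη₂0
  have hcd : ∀ x ∈ U, ContDiffAt ℝ 1 ρ x := fun x hx => hρ.contDiffAt (hU.mem_nhds hx)
  set e : ℝ := c / 4 with he
  have he0 : 0 < e := by positivity
  set C : ℝ := ‖v‖ + c + C₁ with hC
  have hC0 : 0 < C := by positivity
  set a : ℝ := a₀ / 2 with ha
  have ha0 : 0 < a := by positivity
  -- the constant of `ρ y`
  set N : ℝ := N₀ * C with hN
  have hN0 : 0 < N := by positivity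
  obtain ⟨δ, hδ0, hδC, hδN⟩ : ∃ δ : ℝ, 0 < δ ∧ C * δ ≤ a / 2 ∧ c * δ < a₀ := by
    refine ⟨min (a / (2 * C)) (a₀ / (2 * c)), by positivity, ?_, ?_⟩
    · have h1 : C * min (a / (2 * C)) (a₀ / (2 * c)) ≤ C * (a / (2 * C)) := by
        gcongr
        exact min_le_left _ _
      have h2 : C * (a / (2 * C)) = a / 2 := by field_simp
      linarith
    · have h1 : c * min (a / (2 * C)) (a₀ / (2 * c)) ≤ c * (a₀ / (2 * c)) := by
        gcongr
        exact min_le_right _ _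
      have h2 : c * (a₀ / (2 * c)) = a₀ / 2 := by field_simp
      linarith
  refine ⟨C, e, a, N, δ, hC0, he0, ha0, hN0, hδ0, by linarith, ?_, ?_⟩
  · intro x hx
    apply hball
    rw [mem_ball] at hx ⊢
    rw [ha] at hx
    linarith
  · rintro p ⟨hpE, hpa⟩
    have hp2 : p ∈ ball q (2 * a₀) := by
      rw [mem_ball] at hpa ⊢
      rw [ha] at hpa
      linarith
    have hpU : p ∈ U := hball hp2
    have hρp : ρ p = 0 := (hMU p hpU).1 (hEM hpE)
    obtain ⟨P, hAP, hPv, hdec⟩ := hpert (fderiv ℝ ρ p) η₂ (hder p hp2) hη₂1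
    have hPvv : ‖P v - v‖ ≤ c / 4 := (hPv v hv).trans hη₂v
    refine ⟨LinearMap.ker (fderiv ℝ ρ p).toLinearMap, P v, ?_, ?_, ?_⟩
    · have h1 : ‖P v‖ ≤ ‖P v - v‖ + ‖v‖ := by
        have := norm_add_le (P v - v) v
        rwa [sub_add_cancel] at this
      rw [hC]
      linarith
    · intro w
      obtain ⟨x, y, hx, hy, hw, hxn, hyn⟩ := hdec w
      have h1 : C₁ ≤ C := by
        have := norm_nonneg v
        rw [hC]
        linarith
      exact ⟨x, hx, y, hy, hw, hxn.trans (mul_le_mul_of_nonneg_right h1 (norm_nonneg w)),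
        hyn.trans (mul_le_mul_of_nonneg_right h1 (norm_nonneg w))⟩
    · intro t η ht0 htδ hη0 hNη hosc f hf hfn
      have hf0 : fderiv ℝ ρ p f = 0 := hf
      rcases ht0.eq_or_lt with h0 | h0
      · refine ⟨p, hpE, ?_⟩
        have h1 : f = 0 := by
          apply norm_le_zero_iff.1
          rw [← h0] at hfn
          simpa using hfn
        rw [h1, ← h0]
        simp
      · set y : X := p + (t : ℂ) • P v + f with hy
        have hyp : y - p = (t : ℂ) • P v + f := by rw [hy]; abel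
        have hyp2 : y - p = t • P v + f := by rw [hyp, Complex.coe_smul]
        have hAy : fderiv ℝ ρ p (y - p) = 0 := by
          rw [hyp2, map_add, map_smul, hAP, hf0, smul_zero, add_zero]
        have hyn : ‖y - p‖ ≤ C * t := by
          rw [hyp2]
          have h1 : ‖P v‖ ≤ ‖v‖ + c / 4 := by
            have := norm_add_le (P v - v) v
            rw [sub_add_cancel] at this
            linarith
          calc ‖t • P v + f‖ ≤ ‖t • P v‖ + ‖f‖ := norm_add_le _ _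
            _ ≤ t * (‖v‖ + c / 4) + e * t := by
              rw [norm_smul, Real.norm_of_nonneg ht0]
              gcongr
            _ ≤ C * t := by
              rw [hC, he]
              nlinarith
        have hCt : C * t ≤ a / 2 := (mul_le_mul_of_nonneg_left htδ hC0.le).trans hδC
        have hya : y ∈ ball q a₀ := by
          rw [mem_ball, dist_eq_norm] at hpa ⊢
          have h1 : ‖y - q‖ ≤ ‖y - p‖ + ‖p - q‖ := by
            have := norm_add_le (y - p) (p - q)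
            rwa [sub_add_sub_cancel] at this
          rw [ha] at hpa hCt
          linarith
        -- the value of `ρ` at `y`
        have hρy : ‖ρ y‖ ≤ η * (C * t) := by
          have hsubs : closedBall p (C * t) ⊆ U := by
            intro x hx
            apply hball
            rw [mem_closedBall] at hx
            rw [mem_ball] at hpa ⊢
            have := dist_triangle x p q
            rw [ha] at hpa hCt
            linarith
          have h1 := (convex_closedBall p (C * t)).norm_image_sub_le_of_norm_hasFDerivWithin_le'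
            (f := ρ) (f' := fderiv ℝ ρ) (φ := fderiv ℝ ρ p) (C := η) (x := p) (y := y)
            (fun z hz => ((hcd z (hsubs hz)).differentiableAt
              one_ne_zero).hasFDerivAt.hasFDerivWithinAt) hosc
            (mem_closedBall_self (by positivity)) (by rwa [mem_closedBall, dist_eq_norm])
          rw [hρp, hAy, sub_zero, sub_zero] at h1
          exact h1.trans (mul_le_mul_of_nonneg_left hyn hη0)
        have hNρ : N₀ * ‖ρ y‖ ≤ N * η * t := by
          calc N₀ * ‖ρ y‖ ≤ N₀ * (η * (C * t)) := mul_le_mul_of_nonneg_left hρy hN₀.le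
            _ = N * η * t := by rw [hN]; ring
        have hNt : N * η * t ≤ c / 4 * t := mul_le_mul_of_nonneg_right hNη ht0
        obtain ⟨z, hzU, hz0, hzn⟩ := hzero y hya (by
          have h1 : c * t ≤ c * δ := mul_le_mul_of_nonneg_left htδ hc.le
          have h2 : 0 < c * t := mul_pos hc h0
          linarith)
        have hzM : z ∈ M := (hMU z hzU).2 hz0
        refine ⟨z, ?_, ?_⟩
        · apply hcone p ⟨hpE, hpU⟩ z ⟨hzM, hzU⟩ t h0
          have h1 : z - p - (t : ℂ) • v = (z - y) + ((t : ℂ) • (P v - v) + f) := by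
            rw [hy, smul_sub]; abel
          rw [h1]
          have h2 : ‖(t : ℂ) • (P v - v)‖ ≤ t * (c / 4) := by
            rw [norm_smul, Complex.norm_real, Real.norm_of_nonneg ht0]
            exact mul_le_mul_of_nonneg_left hPvv ht0
          have h3 : ‖(z - y) + ((t : ℂ) • (P v - v) + f)‖ ≤
              ‖z - y‖ + (‖(t : ℂ) • (P v - v)‖ + ‖f‖) :=
            (norm_add_le _ _).trans (add_le_add le_rfl (norm_add_le _ _))
          have h4 : 0 < c * t := mul_pos hc h0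
          rw [he] at hfn
          linarith
        · rw [← norm_neg, neg_sub]
          have h1 : z - (p + (t : ℂ) • P v + f) = z - y := by rw [hy]
          rw [h1]
          linarith

end Pool.Agent.H32.PR
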