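import Pool.Agent.H32.PR.Geo
import Pool.Agent.H40.Pluri.Final

/-!
# Compact sets with interior cones in a generic manifold

`HasCones M E`: near each of its points `E` contains truncated cones of `M` with a constant tangent direction (zero direction at interior points).
-/

set_option autoImplicit false

open Set Filter Topology Metric Complex Pool.Agent.H40.Pluri

namespace Pool.Agent.H32.PR

variable {X : Type*} [NormedAddCommGroup X] [InnerProductSpace ℂ X]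

/-- `E` has interior cones in `M`: every `q ∈ E` has a tangent vector `v ∈ T_q M` (`v = 0` is allowed), a number
`c > 0` and a neighbourhood `U` such that `E` contains every point `z ∈ M ∩ U` with
`‖z - p - s v‖ < c s` for some `p ∈ E ∩ U` and some `s > 0`. -/
def HasCones (M E : Set X) : Prop :=
  ∀ q ∈ E, ∃ v ∈ tangentVectors M q, ∃ c : ℝ, 0 < c ∧ ∃ U : Set X, IsOpen U ∧ q ∈ U ∧
    ∀ p ∈ E ∩ U, ∀ z ∈ M ∩ U, ∀ s : ℝ, 0 < s → ‖z - p - (s : ℂ) • v‖ < c * s → z ∈ E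

variable [FiniteDimensional ℂ X]

/-- what `core` gives at a point of a submanifold -/
private lemma at_point {M E : Set X} {m : ℕ} (hm : 1 ≤ m) (hM : IsSubmanifold m M)
    (hG : IsGeneric M) (hEM : E ⊆ M) (hcones : HasCones M E) {q : X} (hq : q ∈ E) :
    ∃ (k : ℕ) (ρ : X → EuclideanSpace ℝ (Fin k)) (U : Set X) (c C e a N δ : ℝ), IsOpen U ∧ q ∈ U ∧
      ContDiffOn ℝ m ρ U ∧ 0 < c ∧ 0 < C ∧ 0 < e ∧ 0 < a ∧ 0 < N ∧ 0 < δ ∧ C * δ ≤ a ∧
      ball q (2 * a) ⊆ U ∧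
      ∀ p ∈ E ∩ ball q a, ∃ (T : Submodule ℝ X) (ν : X), ‖ν‖ ≤ C ∧
        (∀ w : X, ∃ x ∈ T, ∃ y ∈ T, w = x + I • y ∧ ‖x‖ ≤ C * ‖w‖ ∧ ‖y‖ ≤ C * ‖w‖) ∧
        ∀ t η : ℝ, 0 ≤ t → t ≤ δ → 0 ≤ η → N * η ≤ c / 4 →
          (∀ x ∈ closedBall p (C * t), ‖fderiv ℝ ρ x - fderiv ℝ ρ p‖ ≤ η) →
          ∀ f ∈ T, ‖f‖ ≤ e * t → ∃ z ∈ E, ‖p + (t : ℂ) • ν + f - z‖ ≤ N * η * t := by
  have hqM : q ∈ M := hEM hq
  obtain ⟨k, ρ, U₁, hU₁, hqU₁, hρ, hsurj, hMU⟩ := hM q hqM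
  obtain ⟨v, hv, c, hc, U₂, hU₂, hqU₂, hcone⟩ := hcones q hq
  have hρ1 : ContDiffOn ℝ 1 ρ U₁ := hρ.of_le (by exact_mod_cast hm)
  have hρd : DifferentiableAt ℝ ρ q :=
    ((hρ1.contDiffAt (hU₁.mem_nhds hqU₁)).differentiableAt one_ne_zero)
  have htan : ∀ v ∈ tangentVectors M q, fderiv ℝ ρ q v = 0 := fun v hv =>
    fderiv_tangent hU₁ hqU₁ hρd hMU hv
  have hgen : ∀ w : X, ∃ v₁ v₂ : X, fderiv ℝ ρ q v₁ = 0 ∧ fderiv ℝ ρ q v₂ = 0 ∧
      w = v₁ + I • v₂ := by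
    intro w
    obtain ⟨v₁, hv₁, v₂, hv₂, h⟩ := hG q hqM w
    exact ⟨v₁, v₂, htan v₁ hv₁, htan v₂ hv₂, h⟩
  have hMU' : ∀ z ∈ U₁, z ∈ M ↔ ρ z = 0 := by
    intro z hz
    constructor
    · intro h
      have : z ∈ M ∩ U₁ := ⟨h, hz⟩
      rw [hMU] at this
      exact this.2
    · intro h
      have : z ∈ {z | z ∈ U₁ ∧ ρ z = 0} := ⟨hz, h⟩
      rw [← hMU] at this
      exact this.1
  obtain ⟨C, e, a, N, δ, hC, he, ha, hN, hδ, hCδ, hb, h⟩ := core hEM (hU₁.inter hU₂)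
    ⟨hqU₁, hqU₂⟩ (hρ1.mono inter_subset_left) (fun z hz => hMU' z hz.1) (hsurj q hqU₁) hgen
    (htan v hv) hc (fun p hp z hz s hs hn =>
      hcone p ⟨hp.1, hp.2.2⟩ z ⟨hz.1, hz.2.2⟩ s hs hn)
  exact ⟨k, ρ, U₁ ∩ U₂, c, C, e, a, N, δ, hU₁.inter hU₂, ⟨hqU₁, hqU₂⟩, hρ.mono inter_subset_left,
    hc, hC, he, ha, hN, hδ, hCδ, hb, h⟩

private lemma local_one {M E : Set X} {m : ℕ} (hm : 1 ≤ m) (hM : IsSubmanifold m M)
    (hG : IsGeneric M) (hEM : E ⊆ M) (hcones : HasCones M E) {q : X} (hq : q ∈ E) :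
    ∃ C : ℝ, 0 < C ∧ ∃ e : ℝ, 0 < e ∧ ∃ W ∈ 𝓝 q, ∀ κ : ℝ, 0 < κ →
      ∃ δ : ℝ, 0 < δ ∧ ∀ p ∈ E ∩ W, LocalP E p C e κ δ := by
  have : ProperSpace X := FiniteDimensional.proper ℂ X
  obtain ⟨k, ρ, U, c, C, e, a, N, δ, hU, hqU, hρ, hc, hC, he, ha, hN, hδ, hCδ, hb, h⟩ :=
    at_point hm hM hG hEM hcones hq
  have hρ1 : ContDiffOn ℝ 1 ρ U := hρ.of_le (by exact_mod_cast hm)
  refine ⟨C, hC, e, he, ball q a, ball_mem_nhds q ha, fun κ hκ => ?_⟩
  set η : ℝ := min κ (c / 4) / N with hη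
  have hη0 : 0 < η := by positivity
  have hNη : N * η = min κ (c / 4) := by rw [hη]; field_simp
  have hsub : closedBall q (3 * a / 2) ⊆ U := fun x hx => hb (by
    rw [mem_closedBall] at hx
    rw [mem_ball]
    linarith)
  have huc : UniformContinuousOn (fderiv ℝ ρ) (closedBall q (3 * a / 2)) := by
    apply (isCompact_closedBall _ _).uniformContinuousOn_of_continuous
    exact (hρ1.continuousOn_fderiv_of_isOpen hU le_rfl).mono hsub
  obtain ⟨δ₁, hδ₁0, hδ₁⟩ := Metric.uniformContinuousOn_iff.1 huc η hη0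
  refine ⟨min δ (min (a / (2 * C)) (δ₁ / (2 * C))), by positivity, ?_⟩
  intro p hp
  obtain ⟨T, ν, hν, hdec, hmain⟩ := h p hp
  refine ⟨T, ν, hν, hdec, fun t ht0 htδ f hf hfn => ?_⟩
  have ht1 : t ≤ δ := htδ.trans (min_le_left _ _)
  have ht2 : C * t ≤ a / 2 := by
    have h1 : t ≤ a / (2 * C) := htδ.trans ((min_le_right _ _).trans (min_le_left _ _))
    rw [le_div_iff₀ (by positivity)] at h1
    linarith
  have ht3 : C * t ≤ δ₁ / 2 := by
    have h1 : t ≤ δ₁ / (2 * C) := htδ.trans ((min_le_right _ _).trans (min_le_right _ _))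
    rw [le_div_iff₀ (by positivity)] at h1
    linarith
  have hpa : dist p q < a := hp.2
  obtain ⟨z, hz, hzn⟩ := hmain t η ht0 ht1 hη0.le (by rw [hNη]; exact min_le_right _ _) (by
    intro x hx
    rw [mem_closedBall] at hx
    have hxq : x ∈ closedBall q (3 * a / 2) := by
      rw [mem_closedBall]
      linarith [dist_triangle x p q]
    have hpq : p ∈ closedBall q (3 * a / 2) := by
      rw [mem_closedBall]
      linarith
    have h1 := hδ₁ x hxq p hpq (by linarith)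
    rw [dist_eq_norm] at h1
    exact h1.le) f hf hfn
  refine ⟨z, hz, hzn.trans ?_⟩
  rw [hNη]
  exact mul_le_mul_of_nonneg_right (min_le_left _ _) ht0

private lemma local_two {M E : Set X} {m : ℕ} (hm : 2 ≤ m) (hM : IsSubmanifold m M)
    (hG : IsGeneric M) (hEM : E ⊆ M) (hcones : HasCones M E) {q : X} (hq : q ∈ E) :
    ∃ C e K δ : ℝ, 0 < C ∧ 0 < e ∧ 0 < K ∧ 0 < δ ∧ ∃ W ∈ 𝓝 q,
      ∀ p ∈ E ∩ W, FlatAt E p C e δ fun t => K * t ^ 2 := by
  obtain ⟨k, ρ, U, c, C, e, a, N, δ, hU, hqU, hρ, hc, hC, he, ha, hN, hδ, hCδ, hb, h⟩ :=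
    at_point (by omega) hM hG hEM hcones hq
  have hρ2 : ContDiffAt ℝ 2 ρ q := (hρ.of_le (by exact_mod_cast hm)).contDiffAt (hU.mem_nhds hqU)
  have hf1 : ContDiffAt ℝ 1 (fderiv ℝ ρ) q := hρ2.fderiv_right (by norm_num)
  obtain ⟨K₀, S, hS, hlip⟩ := hf1.exists_lipschitzOnWith
  obtain ⟨b, hb0, hbS⟩ := Metric.mem_nhds_iff.1 hS
  set L : ℝ := K₀ + 1 with hL
  have hL0 : 0 < L := by positivity
  set K : ℝ := N * L * C with hK
  have hK0 : 0 < K := by positivity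
  refine ⟨C, e, K, min δ (min (b / (4 * C)) (c / (4 * K))), hC, he, hK0, by positivity,
    ball q (min a (b / 2)), ball_mem_nhds q (by positivity), ?_⟩
  intro p hp
  have hpa : dist p q < a := (mem_ball.1 hp.2).trans_le (min_le_left _ _)
  have hpb : dist p q < b / 2 := (mem_ball.1 hp.2).trans_le (min_le_right _ _)
  obtain ⟨T, ν, hν, hdec, hmain⟩ := h p ⟨hp.1, mem_ball.2 hpa⟩
  refine ⟨T, ν, hν, hdec, fun t ht0 htδ f hf hfn => ?_⟩
  have ht1 : t ≤ δ := htδ.trans (min_le_left _ _)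
  have ht2 : C * t ≤ b / 4 := by
    have h1 : t ≤ b / (4 * C) := htδ.trans ((min_le_right _ _).trans (min_le_left _ _))
    rw [le_div_iff₀ (by positivity)] at h1
    linarith
  have ht3 : K * t ≤ c / 4 := by
    have h1 : t ≤ c / (4 * K) := htδ.trans ((min_le_right _ _).trans (min_le_right _ _))
    rw [le_div_iff₀ (by positivity)] at h1
    linarith
  obtain ⟨z, hz, hzn⟩ := hmain t (L * (C * t)) ht0 ht1 (by positivity)
    (by
      have : N * (L * (C * t)) = K * t := by rw [hK]; ring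
      rw [this]
      exact ht3) (by
    intro x hx
    rw [mem_closedBall] at hx
    have hxS : x ∈ S := hbS (by
      rw [mem_ball]
      linarith [dist_triangle x p q])
    have hpS : p ∈ S := hbS (by
      rw [mem_ball]
      linarith)
    have h1 := hlip.dist_le_mul x hxS p hpS
    rw [dist_eq_norm] at h1
    have hK₀ : (0 : ℝ) ≤ K₀ := K₀.2
    calc ‖fderiv ℝ ρ x - fderiv ℝ ρ p‖ ≤ K₀ * dist x p := h1
      _ ≤ L * (C * t) := by
        apply mul_le_mul _ hx dist_nonneg hL0.le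
        rw [hL]
        linarith) f hf hfn
  refine ⟨z, hz, hzn.trans (le_of_eq ?_)⟩
  rw [hK]
  ring

/-- all small scales, error `κ t` -/
theorem flat_small {M E : Set X} {m : ℕ} (hm : 1 ≤ m) (hM : IsSubmanifold m M)
    (hG : IsGeneric M) (hEM : E ⊆ M) (hcones : HasCones M E) (hE : IsCompact E) :
    ∃ C e : ℝ, 0 < C ∧ 0 < e ∧ ∀ κ > 0, ∃ δ > 0, Flat E C e δ fun t => κ * t := by
  obtain ⟨C, hC, e, he, h⟩ := propP_of_local E hE fun q hq => local_one hm hM hG hEM hcones hq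
  exact ⟨C, e, hC, he, fun κ hκ => h κ hκ⟩

/-- error `K t²` -/
theorem flat_sq {M E : Set X} {m : ℕ} (hm : 2 ≤ m) (hM : IsSubmanifold m M)
    (hG : IsGeneric M) (hEM : E ⊆ M) (hcones : HasCones M E) (hE : IsCompact E) :
    ∃ C e K δ : ℝ, 0 < C ∧ 0 < e ∧ 0 < K ∧ 0 < δ ∧ Flat E C e δ fun t => K * t ^ 2 := by
  have key : ∃ C e K δ : ℝ, 0 < C ∧ 0 < e ∧ 0 < K ∧ 0 < δ ∧
      ∀ p ∈ E, FlatAt E p C e δ fun t => K * t ^ 2 := by
    apply hE.induction_on (p := fun S => ∃ C e K δ : ℝ, 0 < C ∧ 0 < e ∧ 0 < K ∧ 0 < δ ∧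
      ∀ p ∈ S, FlatAt E p C e δ fun t => K * t ^ 2)
    · exact ⟨1, 1, 1, 1, one_pos, one_pos, one_pos, one_pos, fun p hp => absurd hp (notMem_empty p)⟩
    · rintro S S' hSS ⟨C, e, K, δ, hC, he, hK, hδ, h⟩
      exact ⟨C, e, K, δ, hC, he, hK, hδ, fun p hp => h p (hSS hp)⟩
    · rintro S S' ⟨C, e, K, δ, hC, he, hK, hδ, h⟩ ⟨C', e', K', δ', hC', he', hK', hδ', h'⟩
      refine ⟨max C C', min e e', max K K', min δ δ', lt_max_of_lt_left hC, lt_min he he',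
        lt_max_of_lt_left hK, lt_min hδ hδ', ?_⟩
      rintro p (hp | hp)
      · exact (h p hp).mono (le_max_left _ _) (min_le_left _ _) (min_le_left _ _)
          fun t _ _ => mul_le_mul_of_nonneg_right (le_max_left _ _) (sq_nonneg t)
      · exact (h' p hp).mono (le_max_right _ _) (min_le_right _ _) (min_le_right _ _)
          fun t _ _ => mul_le_mul_of_nonneg_right (le_max_right _ _) (sq_nonneg t)
    · intro q hq
      obtain ⟨C, e, K, δ, hC, he, hK, hδ, W, hW, h⟩ := local_two hm hM hG hEM hcones hq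
      exact ⟨E ∩ W, inter_mem_nhdsWithin E hW, C, e, K, δ, hC, he, hK, hδ, h⟩
  obtain ⟨C, e, K, δ, hC, he, hK, hδ, h⟩ := key
  exact ⟨C, e, K, δ, hC, he, hK, hδ, h⟩

end Pool.Agent.H32.PR
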