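import Pool.Agent.H40.Pluri.Main

/-!
# The half disc estimate with quadratic boundary data

The flat side carries the bound `a + A (s² + t²)`, whose harmonic extension `a + A (s² + Re ζ²)` has the value `a` at `ζ = is`.
-/

set_option autoImplicit false

open Set Filter Topology Metric Real Complex ComplexConjugate Pool.Agent.H40.Pluri

namespace Pool.Agent.H32.PR

variable {X : Type*} [NormedAddCommGroup X] [InnerProductSpace ℂ X]

theorem halfDisc2 [FiniteDimensional ℂ X] (v : X → ℝ) (hv : UpperSemicontinuous v)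
    (hsm : SubMean v) (p x y ν : X) (s d a b A : ℝ) (hs0 : 0 < s) (hs1 : s ≤ 1) (hab : a ≤ b)
    (hA : 0 ≤ A)
    (hseg : ∀ t : ℝ, |t| ≤ 1 →
      v (p + x + ((d * (s ^ 2 + t ^ 2) : ℝ) : ℂ) • ν + ((t / s : ℝ) : ℂ) • y) ≤
        a + A * (s ^ 2 + t ^ 2))
    (harc : ∀ ζ : ℂ, ‖ζ‖ = 1 →
      v (p + x + ((d : ℂ) * (s ^ 2 + ζ ^ 2)) • ν + (ζ / s) • y) ≤ b) :
    v (p + x + I • y) ≤ a + 2 * s * (b - a + A) := by
  set K : Set ℂ := {ζ | ‖ζ‖ ≤ 1 ∧ 0 ≤ ζ.im} with hK
  have hKcl : IsClosed K :=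
    (isClosed_le continuous_norm continuous_const).inter
      (isClosed_le continuous_const Complex.continuous_im)
  have hKc : IsCompact K := by
    apply (isCompact_closedBall (0 : ℂ) 1).of_isClosed_subset hKcl
    intro ζ hζ
    simpa using hζ.1
  set P : ℂ → ℂ := fun ζ => (b - a + A) * (ζ ^ 2 - 2 * I * ζ) + A * (s ^ 2 + ζ ^ 2) with hP
  have hPd : Differentiable ℂ P := by fun_prop
  set H : ℂ → ℝ := fun ζ => a + (P ζ).re with hH
  have hHc : Continuous H := continuous_const.add (Complex.continuous_re.comp hPd.continuous)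
  have hHval : ∀ ζ : ℂ, H ζ = a + (b - a + A) * (ζ.re ^ 2 - ζ.im ^ 2 + 2 * ζ.im) +
      A * (s ^ 2 + (ζ.re ^ 2 - ζ.im ^ 2)) := by
    intro ζ
    simp only [hH, hP]
    have h1 : ((b : ℂ) - a + A) = ((b - a + A : ℝ) : ℂ) := by push_cast; ring
    have h2 : (A : ℂ) * ((s : ℂ) ^ 2 + ζ ^ 2) = ((A : ℝ) : ℂ) * (((s ^ 2 : ℝ) : ℂ) + ζ ^ 2) := by
      push_cast; ring
    rw [h1, h2, Complex.add_re, Complex.re_ofReal_mul, Complex.re_ofReal_mul, Complex.add_re,
      Complex.ofReal_re]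
    simp [pow_two]
    ring
  have hHm : ∀ ζ ∈ interior K, ∀ᶠ ρ in 𝓝[>] (0 : ℝ), circleAverage H ζ ρ ≤ H ζ := by
    intro ζ _
    refine Eventually.of_forall fun ρ => ?_
    rw [circleAverage_eq_circleAverage_zero_one]
    have h1 : circleAverage (fun z : ℂ => H (ρ * z + ζ)) 0 1 =
        circleAverage (fun z : ℂ => a + (P (ρ * z + ζ)).re) 0 1 := rfl
    rw [h1, circleAverage_fun_add (circleIntegrable_const _ _ _), circleAverage_const,
      circleAverage_re (fun z => P (ρ * z + ζ))]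
    · simp [hH]
    · fun_prop
    · apply ContinuousOn.circleIntegrable'
      apply Continuous.continuousOn
      exact Complex.continuous_re.comp (hPd.continuous.comp (by fun_prop))
  have hbd : ∀ ζ ∈ frontier K,
      v ((p + x + ((d * s ^ 2 : ℝ) : ℂ) • ν) + ζ • (((1 / s : ℝ) : ℂ) • y) +
        ζ ^ 2 • ((d : ℂ) • ν)) ≤ H ζ := by
    intro ζ hζ
    rw [hKcl.frontier_eq] at hζ
    obtain ⟨hζK, hζi⟩ := hζ
    have e1 : (p + x + ((d * s ^ 2 : ℝ) : ℂ) • ν) + ζ • (((1 / s : ℝ) : ℂ) • y) +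
        ζ ^ 2 • ((d : ℂ) • ν) = p + x + ((d : ℂ) * (s ^ 2 + ζ ^ 2)) • ν + (ζ / s) • y := by
      push_cast
      module
    rw [e1, hHval]
    have hcase : ‖ζ‖ = 1 ∨ ζ.im = 0 := by
      by_contra hh
      push Not at hh
      apply hζi
      rw [mem_interior]
      refine ⟨{ζ | ‖ζ‖ < 1 ∧ 0 < ζ.im}, fun w hw => ⟨hw.1.le, hw.2.le⟩, ?_, ?_⟩
      · exact (isOpen_lt continuous_norm continuous_const).inter
          (isOpen_lt continuous_const Complex.continuous_im)
      · exact ⟨lt_of_le_of_ne hζK.1 hh.1, lt_of_le_of_ne hζK.2 (Ne.symm hh.2)⟩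
    have hba : 0 ≤ b - a + A := by linarith
    rcases hcase with h | h
    · refine (harc ζ h).trans ?_
      have h1 : ζ.re ^ 2 + ζ.im ^ 2 = 1 := by
        have := Complex.sq_norm ζ
        rw [h, Complex.normSq_apply] at this
        nlinarith
      have h2 : 0 ≤ ζ.im := hζK.2
      have h3 : ζ.im ≤ 1 := by nlinarith [sq_nonneg ζ.re]
      have h4 : 1 ≤ ζ.re ^ 2 - ζ.im ^ 2 + 2 * ζ.im := by nlinarith
      have h5 : -1 ≤ s ^ 2 + (ζ.re ^ 2 - ζ.im ^ 2) := by nlinarith [sq_nonneg s, sq_nonneg ζ.re]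
      have h6 := mul_le_mul_of_nonneg_left h4 hba
      have h7 := mul_le_mul_of_nonneg_left h5 hA
      linarith
    · have h0 : ζ = ((ζ.re : ℝ) : ℂ) := by
        apply Complex.ext <;> simp [h]
      have h1 : |ζ.re| ≤ 1 := (Complex.abs_re_le_norm ζ).trans hζK.1
      have h2 := hseg ζ.re h1
      have e2 : p + x + ((d * (s ^ 2 + ζ.re ^ 2) : ℝ) : ℂ) • ν + ((ζ.re / s : ℝ) : ℂ) • y =
          p + x + ((d : ℂ) * (s ^ 2 + ζ ^ 2)) • ν + (ζ / s) • y := by
        rw [h0]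
        push_cast
        simp
      rw [e2] at h2
      refine h2.trans ?_
      rw [h]
      have h3 : 0 ≤ (b - a + A) * (ζ.re ^ 2) := mul_nonneg hba (sq_nonneg _)
      nlinarith
  have hfin := maxPrinciple v hv hsm _ _ _ K hKc H hHc.continuousOn hHm hbd (s * I) (by
    simp only [hK, mem_ofPred_eq]
    constructor
    · rw [norm_mul, norm_real, norm_eq_abs, abs_of_pos hs0]
      simpa using hs1
    · simp [hs0.le])
  have e3 : (p + x + ((d * s ^ 2 : ℝ) : ℂ) • ν) + ((s : ℂ) * I) • (((1 / s : ℝ) : ℂ) • y) +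
        ((s : ℂ) * I) ^ 2 • ((d : ℂ) • ν) = p + x + I • y := by
    have h1 : ((s : ℂ) * I) * ((1 / s : ℝ) : ℂ) = I := by
      have : (s : ℂ) ≠ 0 := by exact_mod_cast hs0.ne'
      push_cast
      field_simp
    have h2 : ((s : ℂ) * I) ^ 2 * (d : ℂ) = -((d * s ^ 2 : ℝ) : ℂ) := by
      rw [mul_pow, I_sq]
      push_cast
      ring
    rw [smul_smul, smul_smul, h1, h2]
    module
  rw [e3, hHval] at hfin
  refine hfin.trans ?_
  have hba : 0 ≤ b - a + A := by linarith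
  simp
  nlinarith [mul_nonneg hba (sq_nonneg s)]

end Pool.Agent.H32.PR
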