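import Pool.Agent.H32.PR.Unif

/-!
# From the uniform bound near `E` to the Hölder continuity of the Green function

The end of `main_analysis` (H40/Pluri/Main) for a given order.
-/

set_option autoImplicit false

open Set Filter Topology Metric Real Complex ComplexConjugate Pool.Agent.H40.Pluri

namespace Pool.Agent.H32.PR

variable {X : Type*} [NormedAddCommGroup X] [InnerProductSpace ℂ X] [FiniteDimensional ℂ X]
  {E : Set X}

theorem green_of_ub (hE : IsCompact E) (hne : E.Nonempty) {α : ℝ} (hα0 : 0 < α) (hu : UB E α) :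
    (∀ z, greenV E z = (W E z : EReal)) ∧ ∃ A : ℝ, ∀ z w, |W E z - W E w| ≤ A * ‖z - w‖ ^ α := by
  obtain ⟨R, B, hR, hB, huni⟩ := hu
  have hRα : 0 < R ^ α := Real.rpow_pos_of_pos hR α
  set A : ℝ := B + 1 / α / R ^ α with hA
  have hA0 : 0 ≤ A := by positivity
  -- modulus
  have hmod : ∀ v, Good E v → ∀ h : X, ∀ p ∈ E, v (p + h) ≤ A * ‖h‖ ^ α := by
    intro v hv h p hp
    rcases eq_or_ne h 0 with rfl | hh
    · rw [add_zero, norm_zero, Real.zero_rpow hα0.ne', mul_zero]
      exact hv.onE p hp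
    have hhn : 0 < ‖h‖ := norm_pos_iff.2 hh
    have hhα : 0 < ‖h‖ ^ α := Real.rpow_pos_of_pos hhn α
    have hsm : ∀ ρ, 0 < ρ → ρ ≤ R → ∀ w, ‖w - p‖ ≤ ρ → v w ≤ B * ρ ^ α := fun ρ h1 h2 w h3 =>
      (msup_ge hE hv hp h3).trans (huni v hv ρ h1 h2)
    rcases le_or_gt ‖h‖ R with hle | hgt
    · have h1 := hsm ‖h‖ hhn hle (p + h) (by rw [add_sub_cancel_left])
      refine h1.trans (mul_le_mul_of_nonneg_right ?_ hhα.le)
      have : 0 ≤ 1 / α / R ^ α := by positivity
      rw [hA]
      linarith
    · obtain ⟨Cv, hCv⟩ := hv.gr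
      have h1 := growth v hv.usc hv.sm Cv hCv p R (B * R ^ α) hR
        (fun w hw => hsm R hR le_rfl w (by rwa [mem_closedBall, dist_eq_norm] at hw))
        (p + h) (by rw [add_sub_cancel_left]; exact hgt.le)
      rw [add_sub_cancel_left] at h1
      refine h1.trans ?_
      have h3 : Real.log (‖h‖ / R) ≤ 1 / α / R ^ α * ‖h‖ ^ α := by
        have h2 := Real.log_le_rpow_div (x := ‖h‖ / R) (by positivity) hα0
        have h2' : (‖h‖ / R) ^ α / α = 1 / α / R ^ α * ‖h‖ ^ α := by
          rw [Real.div_rpow hhn.le hR.le]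
          field_simp
        linarith
      have h4 : R ^ α ≤ ‖h‖ ^ α := Real.rpow_le_rpow hR.le hgt.le hα0.le
      have h5 := mul_le_mul_of_nonneg_left h4 hB
      rw [hA]
      linarith
  obtain ⟨p₀, hp₀⟩ := hne
  have hbdd : ∀ z, BddAbove {t | ∃ v, Good E v ∧ v z = t} := by
    intro z
    refine ⟨A * ‖z - p₀‖ ^ α, ?_⟩
    rintro t ⟨v, hv, rfl⟩
    have := hmod v hv (z - p₀) p₀ hp₀
    rwa [add_sub_cancel] at this
  have hle : ∀ v, Good E v → ∀ z, v z ≤ W E z := fun v hv z => le_csSup (hbdd z) ⟨v, hv, rfl⟩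
  have hne' : ∀ z : X, {t | ∃ v, Good E v ∧ v z = t}.Nonempty := fun z =>
    ⟨0, fun _ => 0, good_zero E, rfl⟩
  have hWle : ∀ z t, (∀ v, Good E v → v z ≤ t) → W E z ≤ t := by
    intro z t h
    apply csSup_le (hne' z)
    rintro _ ⟨v, hv, rfl⟩
    exact h v hv
  refine ⟨fun z => ?_, A, fun z w => ?_⟩
  · apply le_antisymm
    · apply iSup₂_le
      rintro u ⟨hu, huE⟩
      have h1 := hle _ (good_pos hu huE) z
      have h2 : u z ≤ (pos u z : EReal) := by
        rw [coe_pos hu.1.2.1]; exact le_max_left _ _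
      refine h2.trans ?_
      exact_mod_cast h1
    · have h1 : ∀ v, Good E v → (v z : EReal) ≤ greenV E z := by
        intro v hv
        exact le_iSup₂_of_le (fun z => (v z : EReal)) (lelong_of_good hv) le_rfl
      apply le_of_forall_lt
      intro c hc
      induction c with
      | bot =>
        have h2 := h1 _ (good_zero E)
        exact lt_of_lt_of_le (EReal.bot_lt_coe 0) h2
      | top => exact absurd hc (by simp)
      | coe c =>
        have h2 : c < W E z := by exact_mod_cast hc
        obtain ⟨_, ⟨v, hv, rfl⟩, h3⟩ := exists_lt_of_lt_csSup (hne' z) h2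
        exact lt_of_lt_of_le (by exact_mod_cast h3) (h1 v hv)
  · have key : ∀ z h : X, W E (z + h) ≤ W E z + A * ‖h‖ ^ α := by
      intro z h
      apply hWle
      intro v hv
      have h1 := hle _ (good_translate hv h _ (fun p hp => hmod v hv h p hp)) z
      have h2 := (le_max_left _ _).trans h1
      linarith
    rw [abs_le]
    constructor
    · have := key z (w - z)
      rw [add_sub_cancel, norm_sub_rev] at this
      linarith
    · have := key w (z - w)
      rw [add_sub_cancel] at this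
      linarith

end Pool.Agent.H32.PR
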