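import Pool.Agent.H40.Pluri.Main

/-!
# The order `1/2` is optimal: the unit ball of `ℝⁿ`
-/

set_option autoImplicit false

open Set Filter Topology Metric Pool.Agent.H40.Pluri

namespace Pool.Agent.H32.PR

/-- Jensen's inequality for an entire function of one variable -/
private lemma log_le_average {F : ℂ → ℂ} (hF : Differentiable ℂ F) (h0 : F 0 ≠ 0) :
    Real.log ‖F 0‖ ≤ Real.circleAverage (fun s => Real.log ‖F s‖) 0 1 := by
  have hA : AnalyticOnNhd ℂ F (closedBall 0 |1|) := fun z _ => hF.analyticAt z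
  have h := hA.circleAverage_log_norm one_ne_zero h0
  have h1 : 0 ≤ ∑ᶠ u, (MeromorphicOn.divisor F (closedBall 0 |1|) u : ℝ) *
      Real.log (1 * ‖0 - u‖⁻¹) := by
    apply finsum_nonneg
    intro u
    by_cases hu : u ∈ closedBall (0 : ℂ) |1|
    · have h0 : 0 ≤ MeromorphicOn.divisor F (closedBall 0 |1|) u :=
        MeromorphicOn.AnalyticOnNhd.divisor_nonneg hA u
      refine mul_nonneg (mod_cast h0) ?_
      have h2 : ‖0 - u‖ ≤ 1 := by simpa using hu
      rcases eq_or_lt_of_le (norm_nonneg (0 - u)) with h3 | h3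
      · rw [← h3]
        simp
      · rw [one_mul]
        exact Real.log_nonneg ((one_le_inv₀ h3).2 h2)
    · rw [Function.locallyFinsuppWithin.apply_eq_zero_of_notMem _ hu]
      simp
  linarith

/-- the functions `(1/k) log⁺ |T_k(z_j)|` -/
theorem good_cheb {n : ℕ} (j : Fin n) {k : ℕ} (hk : 1 ≤ k) {E : Set (EuclideanSpace ℂ (Fin n))}
    (hE : ∀ z ∈ E, ∃ x : ℝ, |x| ≤ 1 ∧ z j = (x : ℂ)) :
    Good E (fun z => (k : ℝ)⁻¹ *
      Real.posLog ‖(Polynomial.Chebyshev.T ℂ k).eval (z j)‖) := by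
  have hk0 : (0 : ℝ) < k := by exact_mod_cast hk
  have hcont : Continuous (fun z : EuclideanSpace ℂ (Fin n) => (k : ℝ)⁻¹ *
      Real.posLog ‖(Polynomial.Chebyshev.T ℂ k).eval (z j)‖) := by
    apply continuous_const.mul
    apply Real.continuous_posLog.comp
    apply Continuous.norm
    apply (Polynomial.continuous _).comp
    fun_prop
  refine ⟨hcont.upperSemicontinuous, ?_, ?_, ?_, ?_⟩
  · intro a b g hg hle
    obtain ⟨F, hF⟩ : ∃ F : ℂ → ℂ, F = fun s =>
      (Polynomial.Chebyshev.T ℂ k).eval ((a + s • b) j) := ⟨_, rfl⟩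
    have hFd : Differentiable ℂ F := by
      rw [hF]
      have h1 : Differentiable ℂ (fun s : ℂ => (a + s • b) j) := by
        have : (fun s : ℂ => (a + s • b) j) = fun s => a j + s * b j := by
          ext s
          simp
        rw [this]
        fun_prop
      exact (Polynomial.differentiable _).comp h1
    have hgi : CircleIntegrable g 0 1 := hg.circleIntegrable (by norm_num)
    have hg0 : ∀ s ∈ sphere (0 : ℂ) 1, 0 ≤ g s := fun s hs =>
      le_trans (mul_nonneg (inv_nonneg.2 hk0.le) Real.posLog_nonneg) (hle s hs)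
    have ha : (fun z : EuclideanSpace ℂ (Fin n) => (k : ℝ)⁻¹ *
      Real.posLog ‖(Polynomial.Chebyshev.T ℂ k).eval (z j)‖) a = (k : ℝ)⁻¹ * Real.posLog ‖F 0‖ := by
      rw [hF]
      simp
    rw [ha]
    rcases le_or_gt (Real.log ‖F 0‖) 0 with h2 | h2
    · rw [Real.posLog_apply, max_eq_left h2, mul_zero]
      apply Real.circleAverage_nonneg_of_nonneg
      intro s hs
      rw [abs_one] at hs
      exact hg0 s hs
    · have hF0 : F 0 ≠ 0 := by
        intro h3
        rw [h3] at h2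
        simp at h2
      rw [Real.posLog_apply, max_eq_right h2.le]
      have h3 := log_le_average hFd hF0
      have h4 : CircleIntegrable (fun s => Real.log ‖F s‖) 0 1 := by
        have hA : AnalyticOnNhd ℂ F (sphere 0 |1|) := fun z _ => hFd.analyticAt z
        exact hA.meromorphicOn.circleIntegrable_log_norm
      have h5 : Real.circleAverage (fun s => Real.log ‖F s‖) 0 1 ≤
          Real.circleAverage (fun s => (k : ℝ) * g s) 0 1 := by
        have hgk : CircleIntegrable (fun s => (k : ℝ) * g s) 0 1 :=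
          (continuousOn_const.mul hg).circleIntegrable (by norm_num)
        apply Real.circleAverage_mono h4 hgk
        intro s hs
        rw [abs_one] at hs
        have h6 := hle s hs
        have h7 : Real.log ‖F s‖ ≤ Real.posLog ‖F s‖ := by
          rw [Real.posLog_apply]
          exact le_max_right _ _
        have h8 : (k : ℝ)⁻¹ * Real.posLog ‖F s‖ ≤ g s := by
          rw [hF]
          exact h6
        have h9 := mul_le_mul_of_nonneg_left h8 hk0.le
        rw [← mul_assoc, mul_inv_cancel₀ hk0.ne', one_mul] at h9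
        exact h7.trans h9
      have h6 : Real.circleAverage (fun s => (k : ℝ) * g s) 0 1 = k * Real.circleAverage g 0 1 := by
        have := Real.circleAverage_fun_smul (a := (k : ℝ)) (f := g) (c := 0) (R := 1)
        simpa [smul_eq_mul] using this
      rw [h6] at h5
      rw [inv_mul_le_iff₀ hk0]
      exact h3.trans h5
  · intro z
    exact mul_nonneg (inv_nonneg.2 hk0.le) Real.posLog_nonneg
  · intro z hz
    obtain ⟨x, hx, hzx⟩ := hE z hz
    have h1 : ‖(Polynomial.Chebyshev.T ℂ k).eval (z j)‖ ≤ 1 := by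
      have h2 := Polynomial.Chebyshev.abs_eval_T_real_le_one (k : ℤ) hx
      have h3 : (Polynomial.Chebyshev.T ℂ k).eval (x : ℂ) =
          (((Polynomial.Chebyshev.T ℝ k).eval x : ℝ) : ℂ) := by
        rw [← Polynomial.Chebyshev.map_T (algebraMap ℝ ℂ), Polynomial.eval_map_algebraMap]
        exact Polynomial.aeval_algebraMap_apply_eq_algebraMap_eval x _
      rw [hzx, h3, Complex.norm_real, Real.norm_eq_abs]
      exact h2
    have h2 : Real.posLog ‖(Polynomial.Chebyshev.T ℂ k).eval (z j)‖ = 0 := by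
      rw [Real.posLog_eq_zero_iff, abs_of_nonneg (norm_nonneg _)]
      exact h1
    show (k : ℝ)⁻¹ * Real.posLog ‖(Polynomial.Chebyshev.T ℂ k).eval (z j)‖ ≤ 0
    rw [h2, mul_zero]
  · obtain ⟨P, hP⟩ : ∃ P, P = Polynomial.Chebyshev.T ℂ k := ⟨_, rfl⟩
    have hdeg : P.natDegree = k := by
      rw [hP, Polynomial.Chebyshev.natDegree_T]
      rfl
    obtain ⟨S, hS⟩ : ∃ S : ℝ, S = ∑ i ∈ Finset.range (k + 1), ‖P.coeff i‖ := ⟨_, rfl⟩
    have hS0 : 0 ≤ S := hS ▸ Finset.sum_nonneg fun i _ => norm_nonneg _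
    refine ⟨(k : ℝ)⁻¹ * Real.log (S + 1), fun z => ?_⟩
    show (k : ℝ)⁻¹ * Real.posLog ‖(Polynomial.Chebyshev.T ℂ k).eval (z j)‖ ≤ _
    rw [← hP]
    have hzj : ‖z j‖ ≤ ‖z‖ := PiLp.norm_apply_le z j
    have h1 : ‖P.eval (z j)‖ ≤ S * (1 + ‖z‖) ^ k := by
      rw [Polynomial.eval_eq_sum_range, hdeg, hS, Finset.sum_mul]
      refine (norm_sum_le _ _).trans (Finset.sum_le_sum fun i hi => ?_)
      rw [norm_mul, norm_pow]
      apply mul_le_mul_of_nonneg_left _ (norm_nonneg _)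
      have hik : i ≤ k := by
        have := Finset.mem_range.1 hi
        omega
      calc ‖z j‖ ^ i ≤ (1 + ‖z‖) ^ i := pow_le_pow_left₀ (norm_nonneg _) (by linarith) i
        _ ≤ (1 + ‖z‖) ^ k := pow_le_pow_right₀ (by linarith [norm_nonneg z]) hik
    have h2 : (1 : ℝ) ≤ (1 + ‖z‖) ^ k := one_le_pow₀ (by linarith [norm_nonneg z])
    have h3 : max 1 ‖P.eval (z j)‖ ≤ (S + 1) * (1 + ‖z‖) ^ k := by
      apply max_le
      · nlinarith
      · nlinarith
    rw [Real.posLog_eq_log_max_one (norm_nonneg _)]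
    have h4 : Real.log (max 1 ‖P.eval (z j)‖) ≤ Real.log (S + 1) + k * Real.log (1 + ‖z‖) := by
      refine (Real.log_le_log (by positivity) h3).trans (le_of_eq ?_)
      rw [Real.log_mul (by positivity) (by positivity), Real.log_pow]
    have h5 := mul_le_mul_of_nonneg_left h4 (inv_nonneg.2 hk0.le)
    refine h5.trans (le_of_eq ?_)
    field_simp
    ring

/-- lower bound for the Green function near the sphere -/
theorem lower {n : ℕ} (j : Fin n) {k : ℕ} (hk : 1 ≤ k) {E : Set (EuclideanSpace ℂ (Fin n))}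
    (hE : ∀ z ∈ E, ∃ x : ℝ, |x| ≤ 1 ∧ z j = (x : ℂ)) :
    (((k : ℝ)⁻¹ * Real.log (Real.cosh 1) : ℝ) : EReal) ≤
      greenV E (EuclideanSpace.single j ((Real.cosh (k : ℝ)⁻¹ : ℝ) : ℂ)) := by
  have hk0 : (0 : ℝ) < k := by exact_mod_cast hk
  obtain ⟨h1, h2⟩ := lelong_of_good (good_cheb j hk hE)
  have h3 : (((k : ℝ)⁻¹ * Real.posLog ‖(Polynomial.Chebyshev.T ℂ k).eval
      ((EuclideanSpace.single j ((Real.cosh (k : ℝ)⁻¹ : ℝ) : ℂ)) j)‖ : ℝ) : EReal) ≤
      greenV E (EuclideanSpace.single j ((Real.cosh (k : ℝ)⁻¹ : ℝ) : ℂ)) := by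
    unfold greenV
    exact le_iSup₂_of_le (f := fun (u : EuclideanSpace ℂ (Fin n) → EReal)
      (_ : u ∈ {u : EuclideanSpace ℂ (Fin n) → EReal | IsLelong u ∧ ∀ w ∈ E, u w ≤ 0}) =>
        u (EuclideanSpace.single j ((Real.cosh (k : ℝ)⁻¹ : ℝ) : ℂ))) _ ⟨h1, h2⟩ le_rfl
  refine le_trans (EReal.coe_le_coe_iff.2 ?_) h3
  apply mul_le_mul_of_nonneg_left _ (inv_nonneg.2 hk0.le)
  have h4 : (Polynomial.Chebyshev.T ℂ k).eval
      ((EuclideanSpace.single j ((Real.cosh (k : ℝ)⁻¹ : ℝ) : ℂ)) j) = ((Real.cosh 1 : ℝ) : ℂ) := by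
    have h5 : (EuclideanSpace.single j ((Real.cosh (k : ℝ)⁻¹ : ℝ) : ℂ)) j =
        ((Real.cosh (k : ℝ)⁻¹ : ℝ) : ℂ) := by simp
    rw [h5, Complex.ofReal_cosh]
    have h6 := Polynomial.Chebyshev.T_complex_cosh (((k : ℝ)⁻¹ : ℝ) : ℂ) (k : ℤ)
    have h7 : ((k : ℤ) : ℂ) * (((k : ℝ)⁻¹ : ℝ) : ℂ) = ((1 : ℝ) : ℂ) := by
      push_cast
      exact mul_inv_cancel₀ (by exact_mod_cast hk0.ne')
    rw [h6, Complex.ofReal_cosh, h7]
  rw [h4, Complex.norm_real, Real.norm_eq_abs, Real.posLog_abs, Real.posLog_apply]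
  exact le_max_right _ _

/-- `V` is not Hölder continuous of an order larger than `1/2` -/
theorem not_holder {n : ℕ} (j : Fin n) {E : Set (EuclideanSpace ℂ (Fin n))}
    (hE : ∀ z ∈ E, ∃ x : ℝ, |x| ≤ 1 ∧ z j = (x : ℂ)) (he : EuclideanSpace.single j (1 : ℂ) ∈ E)
    {α A : ℝ} (hα : 1 / 2 < α) {f : EuclideanSpace ℂ (Fin n) → ℝ}
    (hf : ∀ z, greenV E z = (f z : EReal)) : ¬ ∀ z w, |f z - f w| ≤ A * ‖z - w‖ ^ α := by
  intro hH
  have hf0 : f (EuclideanSpace.single j (1 : ℂ)) ≤ 0 := by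
    have h1 : greenV E (EuclideanSpace.single j (1 : ℂ)) ≤ 0 := by
      unfold greenV
      exact iSup₂_le fun u hu => hu.2 _ he
    rw [hf] at h1
    exact_mod_cast h1
  have hA0 : 0 ≤ A := by
    have h1 := hH (EuclideanSpace.single j (1 : ℂ)) 0
    have h2 : ‖EuclideanSpace.single j (1 : ℂ) - 0‖ = 1 := by simp
    rw [h2, Real.one_rpow, mul_one] at h1
    exact (abs_nonneg _).trans h1
  have hc : 0 < Real.log (Real.cosh 1) := Real.log_pos (by
    rw [Real.one_lt_cosh]
    norm_num)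
  have key : ∀ k : ℕ, 1 ≤ k → Real.log (Real.cosh 1) ≤ A * (k : ℝ) ^ (1 - 2 * α) := by
    intro k hk
    have hk0 : (0 : ℝ) < k := by exact_mod_cast hk
    have hk1 : (1 : ℝ) ≤ k := by exact_mod_cast hk
    have h1 := lower j hk hE
    rw [hf] at h1
    have h2 : (k : ℝ)⁻¹ * Real.log (Real.cosh 1) ≤
      f (EuclideanSpace.single j ((Real.cosh (k : ℝ)⁻¹ : ℝ) : ℂ)) := by exact_mod_cast h1
    have h3 := hH (EuclideanSpace.single j ((Real.cosh (k : ℝ)⁻¹ : ℝ) : ℂ))
      (EuclideanSpace.single j (1 : ℂ))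
    have h4 : ‖EuclideanSpace.single j ((Real.cosh (k : ℝ)⁻¹ : ℝ) : ℂ) -
        EuclideanSpace.single j (1 : ℂ)‖ = Real.cosh (k : ℝ)⁻¹ - 1 := by
      have h5 : EuclideanSpace.single j ((Real.cosh (k : ℝ)⁻¹ : ℝ) : ℂ) -
        EuclideanSpace.single j (1 : ℂ) =
          EuclideanSpace.single j (((Real.cosh (k : ℝ)⁻¹ - 1 : ℝ)) : ℂ) := by
        ext i
        by_cases hi : i = j <;> simp [hi]
      rw [h5, PiLp.norm_single, Complex.norm_real, Real.norm_eq_abs, abs_of_nonneg]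
      linarith [Real.one_le_cosh (k : ℝ)⁻¹]
    have hki : (k : ℝ)⁻¹ ≤ 1 := inv_le_one_of_one_le₀ hk1
    have hki0 : 0 < (k : ℝ)⁻¹ := inv_pos.2 hk0
    have h5 : Real.cosh (k : ℝ)⁻¹ - 1 ≤ (k : ℝ)⁻¹ ^ 2 := by
      have h6 := Real.cosh_le_exp_half_sq (k : ℝ)⁻¹
      have h7 : (k : ℝ)⁻¹ ^ 2 ≤ 1 := pow_le_one₀ hki0.le hki
      have h8 : |(k : ℝ)⁻¹ ^ 2 / 2| ≤ 1 := by
        rw [abs_of_nonneg (by positivity)]
        linarith
      have h9 := (abs_le.1 (Real.abs_exp_sub_one_sub_id_le h8)).2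
      nlinarith [sq_nonneg ((k : ℝ)⁻¹ ^ 2)]
    have h6 : (Real.cosh (k : ℝ)⁻¹ - 1) ^ α ≤ ((k : ℝ)⁻¹ ^ 2) ^ α :=
      Real.rpow_le_rpow (by linarith [Real.one_le_cosh (k : ℝ)⁻¹]) h5 (by linarith)
    rw [h4] at h3
    have h7 : (k : ℝ)⁻¹ * Real.log (Real.cosh 1) ≤ A * ((k : ℝ)⁻¹ ^ 2) ^ α := by
      have h8 := le_abs_self (f (EuclideanSpace.single j ((Real.cosh (k : ℝ)⁻¹ : ℝ) : ℂ)) -
        f (EuclideanSpace.single j (1 : ℂ)))
      have h9 := mul_le_mul_of_nonneg_left h6 hA0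
      linarith
    have h8 : ((k : ℝ)⁻¹ ^ 2) ^ α = (k : ℝ)⁻¹ * (k : ℝ) ^ (1 - 2 * α) := by
      rw [← Real.rpow_natCast, ← Real.rpow_mul hki0.le, Real.rpow_sub hk0, Real.rpow_one,
        Real.inv_rpow hk0.le]
      push_cast
      field_simp
    rw [h8] at h7
    have h9 : (k : ℝ)⁻¹ * Real.log (Real.cosh 1) ≤ (k : ℝ)⁻¹ * (A * (k : ℝ) ^ (1 - 2 * α)) := by
      linarith
    exact le_of_mul_le_mul_left h9 hki0
  have hlim : Tendsto (fun k : ℕ => A * (k : ℝ) ^ (1 - 2 * α)) atTop (𝓝 (A * 0)) := by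
    apply Tendsto.const_mul
    have h1 : Tendsto (fun x : ℝ => x ^ (-(2 * α - 1))) atTop (𝓝 0) :=
      tendsto_rpow_neg_atTop (by linarith)
    have h2 := h1.comp tendsto_natCast_atTop_atTop
    have h3 : ((fun x : ℝ => x ^ (-(2 * α - 1))) ∘ (Nat.cast : ℕ → ℝ)) =
        fun k : ℕ => (k : ℝ) ^ (1 - 2 * α) := by
      ext k
      simp only [Function.comp_apply]
      congr 1
      ring
    rw [h3] at h2
    exact h2
  rw [mul_zero] at hlim
  have h1 : Real.log (Real.cosh 1) ≤ 0 := by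
    apply ge_of_tendsto hlim
    filter_upwards [eventually_ge_atTop 1] with k hk
    exact key k hk
  linarith

/-- `ℝⁿ ⊆ ℂⁿ` -/
def RealSpace (n : ℕ) : Set (EuclideanSpace ℂ (Fin n)) := {z | ∀ j, (z j).im = 0}

/-- the imaginary part -/
noncomputable def imPart (n : ℕ) : EuclideanSpace ℂ (Fin n) →L[ℝ] EuclideanSpace ℝ (Fin n) :=
  (PiLp.continuousLinearEquiv 2 ℝ (fun _ : Fin n => ℝ)).symm.toContinuousLinearMap.comp
    (ContinuousLinearMap.pi fun j => Complex.imCLM.comp
      ((EuclideanSpace.proj j : EuclideanSpace ℂ (Fin n) →L[ℂ] ℂ).restrictScalars ℝ))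

theorem imPart_apply {n : ℕ} (z : EuclideanSpace ℂ (Fin n)) (j : Fin n) :
    imPart n z j = (z j).im := rfl

theorem isSubmanifold_real (m n : ℕ) : IsSubmanifold m (RealSpace n) := by
  intro p _
  refine ⟨n, imPart n, univ, isOpen_univ, mem_univ _, (imPart n).contDiff.contDiffOn, ?_, ?_⟩
  · intro z _ w
    rw [(imPart n).fderiv]
    refine ⟨WithLp.toLp 2 fun j => Complex.I * (w j : ℂ), ?_⟩
    ext j
    rw [imPart_apply]
    simp
  · ext z
    simp only [inter_univ, mem_univ, true_and, mem_ofPred_eq, RealSpace]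
    constructor
    · intro h
      ext j
      rw [imPart_apply]
      exact h j
    · intro h j
      rw [← imPart_apply, h]
      rfl

theorem tangent_real {n : ℕ} {p v : EuclideanSpace ℂ (Fin n)} (hp : p ∈ RealSpace n)
    (hv : v ∈ RealSpace n) : v ∈ tangentVectors (RealSpace n) p := by
  refine ⟨fun t : ℝ => p + t • v, by simp, Eventually.of_forall fun t j => ?_, ?_⟩
  · have h1 := hp j
    have h2 := hv j
    simp [h1, h2]
  · have h1 : HasDerivAt (fun t : ℝ => t • v) ((1 : ℝ) • v) 0 := (hasDerivAt_id 0).smul_const v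
    rw [one_smul] at h1
    exact h1.const_add p

theorem isGeneric_real (n : ℕ) : IsGeneric (RealSpace n) := by
  intro p hp w
  refine ⟨WithLp.toLp 2 fun j => ((w j).re : ℂ), tangent_real hp fun j => ?_,
    WithLp.toLp 2 fun j => ((w j).im : ℂ), tangent_real hp fun j => ?_, ?_⟩
  · simp
  · simp
  · ext j
    simp only [PiLp.add_apply, PiLp.smul_apply, smul_eq_mul]
    rw [mul_comm]
    exact (Complex.re_add_im (w j)).symm

theorem isClosed_real (n : ℕ) : IsClosed (RealSpace n) := by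
  have h1 : RealSpace n = ⋂ j, {z : EuclideanSpace ℂ (Fin n) | (z j).im = 0} := by
    ext z
    simp [RealSpace]
  rw [h1]
  refine isClosed_iInter fun j => isClosed_eq ?_ continuous_const
  exact Complex.continuous_im.comp (by fun_prop)

theorem smul_real {n : ℕ} {z : EuclideanSpace ℂ (Fin n)} (hz : z ∈ RealSpace n) (t : ℝ) :
    t • z ∈ RealSpace n := by
  intro j
  have h1 := hz j
  simp [h1]

/-- the closure of the open unit ball of `ℝⁿ` -/
theorem closure_ball_real (n : ℕ) :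
    closure (RealSpace n ∩ ball 0 1) = RealSpace n ∩ closedBall 0 1 := by
  apply Subset.antisymm
  · apply closure_minimal _ ((isClosed_real n).inter isClosed_closedBall)
    exact inter_subset_inter_right _ ball_subset_closedBall
  · rintro z ⟨hz, hz1⟩
    have h1 : Tendsto (fun t : ℝ => t • z) (𝓝[<] 1) (𝓝 ((1 : ℝ) • z)) :=
      ((continuous_id.smul continuous_const).tendsto 1).mono_left nhdsWithin_le_nhds
    rw [one_smul] at h1
    refine mem_closure_of_tendsto h1 ?_
    filter_upwards [Ioo_mem_nhdsLT (show (0 : ℝ) < 1 by norm_num)] with t ht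
    refine ⟨smul_real hz t, ?_⟩
    rw [mem_closedBall_zero_iff] at hz1
    rw [mem_ball_zero_iff, norm_smul, Real.norm_eq_abs, abs_of_pos ht.1]
    nlinarith [ht.1, ht.2, norm_nonneg z]

theorem isC1Domain_ball (n : ℕ) : IsC1Domain (RealSpace n) (RealSpace n ∩ ball 0 1) where
  isOpen_in := ⟨ball 0 1, isOpen_ball, inter_comm _ _⟩
  isConnected := by
    have h1 : Convex ℝ (RealSpace n) := by
      intro x hx y hy a b _ _ _ j
      have h1 := hx j
      have h2 := hy j
      simp [h1, h2]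
    refine (h1.inter (convex_ball 0 1)).isConnected ⟨0, fun j => ?_, mem_ball_self one_pos⟩
    simp
  isCompact_closure := by
    have : ProperSpace (EuclideanSpace ℂ (Fin n)) := inferInstance
    rw [closure_ball_real]
    exact (isCompact_closedBall _ _).inter_left (isClosed_real n)
  closure_subset := by
    rw [closure_ball_real]
    exact inter_subset_left
  boundary := by
    rw [closure_ball_real]
    rintro q ⟨⟨hq, hq1⟩, hq2⟩
    have hqn : ‖q‖ = 1 := by
      rw [mem_closedBall_zero_iff] at hq1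
      apply le_antisymm hq1
      by_contra hcon
      push Not at hcon
      exact hq2 ⟨hq, by rw [mem_ball_zero_iff]; exact hcon⟩
    have hr : ContDiff ℝ 1 (fun z : EuclideanSpace ℂ (Fin n) => ‖z‖ ^ 2 - 1) :=
      (contDiff_norm_sq ℂ).sub contDiff_const
    refine ⟨univ, fun z => ‖z‖ ^ 2 - 1, isOpen_univ, mem_univ _, hr.contDiffOn, ?_, q,
      tangent_real hq hq, ?_⟩
    · ext z
      simp only [inter_univ, mem_ofPred_eq, Set.mem_sdiff, mem_inter_iff, mem_closedBall_zero_iff,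
        mem_ball_zero_iff]
      constructor
      · rintro ⟨⟨h1, h2⟩, h3⟩
        refine ⟨h1, ?_⟩
        have h4 : ‖z‖ = 1 := by
          apply le_antisymm h2
          by_contra hcon
          push Not at hcon
          exact h3 ⟨h1, hcon⟩
        rw [h4]
        norm_num
      · rintro ⟨h1, h2⟩
        have h3 : ‖z‖ = 1 := by
          have h4 : ‖z‖ ^ 2 = 1 := by linarith
          have h5 := norm_nonneg z
          nlinarith
        exact ⟨⟨h1, h3.le⟩, fun h4 => by linarith [h4.2]⟩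
    · have h1 : HasFDerivAt (fun z : EuclideanSpace ℂ (Fin n) => ‖z‖ ^ 2 - 1)
          (fderiv ℝ (fun z : EuclideanSpace ℂ (Fin n) => ‖z‖ ^ 2 - 1) q) q :=
        (hr.contDiffAt.differentiableAt one_ne_zero).hasFDerivAt
      have h2 : HasDerivAt (fun t : ℝ => q + t • q) q 0 := by
        have h3 : HasDerivAt (fun t : ℝ => t • q) ((1 : ℝ) • q) 0 := (hasDerivAt_id 0).smul_const q
        rw [one_smul] at h3
        exact h3.const_add q
      have h3 : HasDerivAt ((fun z : EuclideanSpace ℂ (Fin n) => ‖z‖ ^ 2 - 1) ∘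
          fun t : ℝ => q + t • q)
          (fderiv ℝ (fun z : EuclideanSpace ℂ (Fin n) => ‖z‖ ^ 2 - 1) q q) 0 := by
        have h4 : HasFDerivAt (fun z : EuclideanSpace ℂ (Fin n) => ‖z‖ ^ 2 - 1)
          (fderiv ℝ (fun z : EuclideanSpace ℂ (Fin n) => ‖z‖ ^ 2 - 1) q)
          ((fun t : ℝ => q + t • q) 0) := by
          have : (fun t : ℝ => q + t • q) 0 = q := by simp
          rw [this]
          exact h1
        exact h4.comp_hasDerivAt 0 h2
      have h4 : ((fun z : EuclideanSpace ℂ (Fin n) => ‖z‖ ^ 2 - 1) ∘ fun t : ℝ => q + t • q) =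
          fun t : ℝ => (1 + t) ^ 2 - 1 := by
        ext t
        simp only [Function.comp_apply]
        have h5 : q + t • q = (1 + t) • q := by rw [add_smul, one_smul]
        rw [h5, norm_smul, hqn, mul_one, Real.norm_eq_abs, sq_abs]
      rw [h4] at h3
      have h5 : HasDerivAt (fun t : ℝ => (1 + t) ^ 2 - 1) 2 0 := by
        have h6 : HasDerivAt (fun t : ℝ => 1 + t) 1 0 := (hasDerivAt_id 0).const_add 1
        have h7 : HasDerivAt (fun t : ℝ => (1 + t) ^ 2 - 1) (((2 : ℕ) : ℝ) * (1 + 0) ^ (2 - 1) * 1) 0 :=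
          (h6.fun_pow 2).sub_const 1
        have h8 : ((2 : ℕ) : ℝ) * (1 + 0) ^ (2 - 1) * 1 = 2 := by norm_num
        rw [h8] at h7
        exact h7
      rw [h3.unique h5]
      norm_num

end Pool.Agent.H32.PR
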