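import Pool.Agent.H32.PR.Step

/-!
# Uniform bounds near `E`

* `ub_small`: cones up to the error `κ t` for every `κ > 0` (small scales): every order `α < 1/2`.
* `ub_half`: cones up to the error `K t²`: the order `1/2`.
-/

set_option autoImplicit false

open Set Filter Topology Metric Real Complex ComplexConjugate Pool.Agent.H40.Pluri

namespace Pool.Agent.H32.PR

variable {X : Type*} [NormedAddCommGroup X] [InnerProductSpace ℂ X] [FiniteDimensional ℂ X]
  {E : Set X}

theorem ub_small (hE : IsCompact E) (hne : E.Nonempty) {C e : ℝ} (hC : 0 < C) (he : 0 < e)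
    (hP : ∀ κ > 0, ∃ δ > 0, Flat E C e δ fun t => κ * t) {α : ℝ} (hα : 0 < α) (hα1 : α < 1 / 2) :
    UB E α := by
  -- the parameters
  set G₀ : ℝ := C * (2 + 4 * C / e) with hG₀
  have hG₀0 : 0 < G₀ := by positivity
  obtain ⟨s, hs0, hs1, hs⟩ : ∃ s, 0 < s ∧ s ≤ 1 ∧ 2 * s * (G₀ / s ^ 2) ^ α ≤ 1 / 4 := by
    have h1 : Tendsto (fun x : ℝ => 2 * G₀ ^ α * x ^ (1 - 2 * α)) (𝓝[>] 0)
        (𝓝 (2 * G₀ ^ α * 0 ^ (1 - 2 * α))) :=
      (((Real.continuousAt_rpow_const 0 (1 - 2 * α) (Or.inr (by linarith))).tendsto.const_mul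
        _)).mono_left nhdsWithin_le_nhds
    rw [Real.zero_rpow (by linarith : (1 - 2 * α) ≠ 0), mul_zero] at h1
    have h2 := h1.eventually (Iio_mem_nhds (by norm_num : (0 : ℝ) < 1 / 4))
    obtain ⟨s, h3, h4⟩ := (h2.and (Ioc_mem_nhdsGT one_pos)).exists
    refine ⟨s, h4.1, h4.2, ?_⟩
    have hs : 0 < s := h4.1
    have h5 : (G₀ / s ^ 2) ^ α = G₀ ^ α * s ^ (-(2 * α)) := by
      rw [Real.div_rpow hG₀0.le (by positivity), ← Real.rpow_natCast s 2, ← Real.rpow_mul hs.le,
        div_eq_mul_inv, ← Real.rpow_neg hs.le]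
      norm_num
    have h6 : s * s ^ (-(2 * α)) = s ^ (1 - 2 * α) := by
      rw [sub_eq_add_neg, Real.rpow_add hs, Real.rpow_one]
    calc 2 * s * (G₀ / s ^ 2) ^ α = 2 * G₀ ^ α * (s * s ^ (-(2 * α))) := by rw [h5]; ring
      _ ≤ 1 / 4 := by rw [h6]; exact h3.le
  set c₁ : ℝ := (1 / 4 : ℝ) ^ (1 / α) with hc₁
  have hc₁0 : 0 < c₁ := Real.rpow_pos_of_pos (by norm_num) _
  have hc₁1 : c₁ ≤ 1 := Real.rpow_le_one (by norm_num) (by norm_num) (by positivity)
  have hc₁α : c₁ ^ α = 1 / 4 := by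
    rw [hc₁, ← Real.rpow_mul (by norm_num), one_div_mul_cancel hα.ne', Real.rpow_one]
  set κ : ℝ := e * s ^ 2 / (4 * C) * c₁ with hκ
  have hκ0 : 0 < κ := by positivity
  obtain ⟨δ, hδ0, hF⟩ := hP κ hκ0
  set ρ₁ : ℝ := e * s ^ 2 * δ / (4 * C) with hρ₁
  have hρ₁0 : 0 < ρ₁ := by positivity
  set G : ℝ := G₀ / s ^ 2 with hG
  have hG0 : 0 < G := by positivity
  set R : ℝ := (G + 1) * ρ₁ with hR
  have hR0 : 0 < R := by positivity
  have hρR : ρ₁ ≤ R := by rw [hR]; nlinarith
  refine ub_of hE hne hα hR0 (C₂ := 1 / ρ₁ ^ α) (by positivity) fun v hv => ?_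
  have h := abs_holder (m := msup E v) (R := R) (ρ₁ := ρ₁) (α := α) (L := 0) hα hρ₁0 hρR le_rfl
    (fun σ hσ => msup_nonneg hE hne hv hσ.le) (fun σ τ hσ hστ _ => msup_mono hE hne hv hσ.le hστ)
    (msup_lim hE hne hv) ?_
  · intro ρ hρ hρR'
    have h1 := h ρ hρ hρR'
    have h2 : 2 * (0 : ℝ) + msup E v R / ρ₁ ^ α = 1 / ρ₁ ^ α * msup E v R := by ring
    rwa [h2] at h1
  · intro ε B hε hεR hB hval ρ hρ hρρ
    have hρα : 0 < ρ ^ α := Real.rpow_pos_of_pos hρ α
    set d : ℝ := 2 * C * ρ / (e * s ^ 2) with hd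
    have hd0 : 0 < d := by positivity
    have hed : e * d * s ^ 2 = 2 * C * ρ := by rw [hd]; field_simp
    have hdδ : 2 * d ≤ δ := by
      have h2 : 2 * (2 * C * ρ₁ / (e * s ^ 2)) = δ := by rw [hρ₁]; field_simp; norm_num
      have h3 : d ≤ 2 * C * ρ₁ / (e * s ^ 2) := by
        rw [hd]
        gcongr
      linarith
    have hκd : κ * (2 * d) = c₁ * ρ := by rw [hκ, hd]; field_simp; norm_num
    have harcr : C * ρ + 2 * d * C + C * ρ / s ≤ G * ρ := by
      have h1 : C * ρ ≤ C * ρ / s ^ 2 := by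
        rw [le_div_iff₀ (by positivity)]
        have : s ^ 2 ≤ 1 := by nlinarith
        have h2 : 0 < C * ρ := by positivity
        nlinarith
      have h2 : C * ρ / s ≤ C * ρ / s ^ 2 := by
        rw [div_le_div_iff₀ hs0 (by positivity)]
        have h3 : 0 < C * ρ := by positivity
        have h4 : s ^ 2 ≤ s := by nlinarith
        nlinarith
      have h3 : 2 * d * C = 4 * C ^ 2 / e * ρ / s ^ 2 := by
        rw [hd]; field_simp; norm_num
      have h4 : G * ρ = C * ρ / s ^ 2 + 4 * C ^ 2 / e * ρ / s ^ 2 + C * ρ / s ^ 2 := by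
        rw [hG, hG₀]; field_simp; ring
      rw [h4, h3]
      linarith
    have hst := step hE hne hF hC he hv (ρ := ρ) (d := d) (s := s)
      (a := msup E v ε + B * (c₁ * ρ) ^ α) (b := msup E v ε + B * (max G c₁ * ρ) ^ α) (A := 0)
      hρ hd0 hs0 hs1 hdδ hed ?_ le_rfl ?_ ?_
    · rw [add_zero] at hst
      refine hst.trans ?_
      have e1 : (c₁ * ρ) ^ α = 1 / 4 * ρ ^ α := by
        rw [Real.mul_rpow hc₁0.le hρ.le, hc₁α]
      have e2 : (max G c₁ * ρ) ^ α - (c₁ * ρ) ^ α ≤ G ^ α * ρ ^ α := by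
        rcases le_total G c₁ with h | h
        · rw [max_eq_right h, sub_self]
          positivity
        · rw [max_eq_left h, Real.mul_rpow hG0.le hρ.le]
          have : 0 ≤ (c₁ * ρ) ^ α := by positivity
          linarith
      have e3 : 2 * s * (msup E v ε + B * (max G c₁ * ρ) ^ α - (msup E v ε + B * (c₁ * ρ) ^ α)) ≤
          B * (1 / 4 * ρ ^ α) := by
        have h1 : msup E v ε + B * (max G c₁ * ρ) ^ α - (msup E v ε + B * (c₁ * ρ) ^ α) =
            B * ((max G c₁ * ρ) ^ α - (c₁ * ρ) ^ α) := by ring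
        rw [h1]
        calc 2 * s * (B * ((max G c₁ * ρ) ^ α - (c₁ * ρ) ^ α))
            ≤ 2 * s * (B * (G ^ α * ρ ^ α)) := by gcongr
          _ = B * ((2 * s * G ^ α) * ρ ^ α) := by ring
          _ ≤ B * (1 / 4 * ρ ^ α) := by gcongr
      rw [e1]
      rw [e1] at e3
      linarith
    · have : (c₁ * ρ) ^ α ≤ (max G c₁ * ρ) ^ α := by
        apply Real.rpow_le_rpow (by positivity) _ hα.le
        exact mul_le_mul_of_nonneg_right (le_max_right _ _) hρ.le
      have := mul_le_mul_of_nonneg_left this hB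
      linarith
    · intro τ hτ hτd
      rw [zero_mul, add_zero]
      have h1 : κ * τ ≤ c₁ * ρ := by
        rw [← hκd]
        exact mul_le_mul_of_nonneg_left hτd hκ0.le
      have h2 : c₁ * ρ ≤ R := by
        have : c₁ * ρ ≤ 1 * ρ₁ := mul_le_mul hc₁1 hρρ hρ.le one_pos.le
        linarith
      exact (msup_mono hE hne hv (by positivity) h1).trans (hval _ (by positivity) h2)
    · have h2 : G * ρ ≤ R := by
        have : G * ρ ≤ G * ρ₁ := mul_le_mul_of_nonneg_left hρρ hG0.le
        rw [hR]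
        linarith
      refine (msup_mono hE hne hv (by positivity) harcr).trans ((hval _ (by positivity) h2).trans ?_)
      have h3 : (G * ρ) ^ α ≤ (max G c₁ * ρ) ^ α := by
        apply Real.rpow_le_rpow (by positivity) _ hα.le
        exact mul_le_mul_of_nonneg_right (le_max_left _ _) hρ.le
      have := mul_le_mul_of_nonneg_left h3 hB
      linarith

theorem ub_half (hE : IsCompact E) (hne : E.Nonempty) {C e δ K : ℝ} (hC : 0 < C) (he : 0 < e)
    (hδ : 0 < δ) (hK : 0 < K) (hF : Flat E C e δ fun t => K * t ^ 2) : UB E (1 / 2) := by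
  set d : ℝ := min (δ / 2) (e / (32 * C * K)) with hd
  have hd0 : 0 < d := by positivity
  have hdδ : 2 * d ≤ δ := by linarith [min_le_left (δ / 2) (e / (32 * C * K))]
  have hdK : 32 * C * K * d ≤ e := by
    have h1 : d ≤ e / (32 * C * K) := min_le_right _ _
    rw [le_div_iff₀ (by positivity)] at h1
    linarith
  set ρ₁ : ℝ := e * d / (2 * C) with hρ₁
  have hρ₁0 : 0 < ρ₁ := by positivity
  set R : ℝ := d * (e + 2 * C) + 4 * K * d ^ 2 + ρ₁ with hR
  have hR0 : 0 < R := by positivity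
  have hρR : ρ₁ ≤ R := by
    have : 0 < d * (e + 2 * C) + 4 * K * d ^ 2 := by positivity
    rw [hR]; linarith
  set c : ℝ := Real.sqrt (2 * C / (e * d)) with hc
  have hc0 : 0 < c := Real.sqrt_pos.2 (by positivity)
  have hc2 : c ^ 2 = 2 * C / (e * d) := Real.sq_sqrt (by positivity)
  refine ub_of hE hne (by norm_num) hR0 (C₂ := 4 * c + 1 / ρ₁ ^ (1 / 2 : ℝ)) (by positivity)
    fun v hv => ?_
  have hmR : 0 ≤ msup E v R := msup_nonneg hE hne hv hR0.le
  have h := abs_holder (m := msup E v) (R := R) (ρ₁ := ρ₁) (α := 1 / 2) (L := 2 * c * msup E v R)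
    (by norm_num) hρ₁0 hρR (by positivity)
    (fun σ hσ => msup_nonneg hE hne hv hσ.le) (fun σ τ hσ hστ _ => msup_mono hE hne hv hσ.le hστ)
    (msup_lim hE hne hv) ?_
  · intro ρ hρ hρR'
    have h1 := h ρ hρ hρR'
    have h2 : 2 * (2 * c * msup E v R) + msup E v R / ρ₁ ^ (1 / 2 : ℝ) =
        (4 * c + 1 / ρ₁ ^ (1 / 2 : ℝ)) * msup E v R := by ring
    rwa [h2] at h1
  · intro ε B hε hεR hB hval ρ hρ hρρ
    have hsq : ∀ x : ℝ, x ^ (1 / 2 : ℝ) = Real.sqrt x := fun x => (Real.sqrt_eq_rpow x).symm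
    rw [hsq]
    set s : ℝ := c * Real.sqrt ρ with hs
    have hρs : 0 < Real.sqrt ρ := Real.sqrt_pos.2 hρ
    have hs0 : 0 < s := by positivity
    have hs2 : s ^ 2 = 2 * C / (e * d) * ρ := by
      rw [hs, mul_pow, hc2, Real.sq_sqrt hρ.le]
    have hs21 : s ^ 2 ≤ 1 := by
      rw [hs2, div_mul_eq_mul_div, div_le_one (by positivity)]
      rw [hρ₁, le_div_iff₀ (by positivity)] at hρρ
      linarith
    have hs1 : s ≤ 1 := by
      by_contra hcon
      push Not at hcon
      nlinarith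
    have hed : e * d * s ^ 2 = 2 * C * ρ := by rw [hs2]; field_simp
    have hmε : msup E v ε ≤ msup E v R := msup_mono hE hne hv hε.le hεR
    have hst := step hE hne hF hC he hv (ρ := ρ) (d := d) (s := s) (a := msup E v ε)
      (b := msup E v R) (A := B * (Real.sqrt K * d)) hρ hd0 hs0 hs1 hdδ hed hmε (by positivity) ?_ ?_
    · refine hst.trans ?_
      have hm0 : 0 ≤ msup E v ε := msup_nonneg hE hne hv hε.le
      have h1 : 2 * s * (msup E v R - msup E v ε + B * (Real.sqrt K * d)) ≤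
          2 * s * (msup E v R + B * (Real.sqrt K * d)) := by
        apply mul_le_mul_of_nonneg_left _ (by positivity)
        linarith
      have h2 : 2 * (c * (Real.sqrt K * d)) ≤ 1 / 2 := by
        have h3 : (c * (Real.sqrt K * d)) ^ 2 ≤ (1 / 4) ^ 2 := by
          rw [mul_pow, mul_pow, hc2, Real.sq_sqrt hK.le]
          have h4 : 2 * C / (e * d) * (K * d ^ 2) = 2 * C * K * d / e := by field_simp
          rw [h4, div_le_iff₀ he]
          linarith
        have h5 := abs_le_of_sq_le_sq h3 (by norm_num)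
        linarith [(abs_le.1 h5).2]
      have h6 : 2 * s * (msup E v R + B * (Real.sqrt K * d)) =
          (2 * c * msup E v R + B * (2 * (c * (Real.sqrt K * d)))) * Real.sqrt ρ := by
        rw [hs]; ring
      have h7 : B * (2 * (c * (Real.sqrt K * d))) ≤ B / 2 := by
        have := mul_le_mul_of_nonneg_left h2 hB
        linarith
      have h8 : (2 * c * msup E v R + B * (2 * (c * (Real.sqrt K * d)))) * Real.sqrt ρ ≤
          (2 * c * msup E v R + B / 2) * Real.sqrt ρ :=
        mul_le_mul_of_nonneg_right (by linarith) hρs.le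
      linarith
    · intro τ hτ hτd
      have h1 : K * τ ^ 2 ≤ R := by
        have h2 : τ ^ 2 ≤ (2 * d) ^ 2 := pow_le_pow_left₀ hτ.le hτd 2
        have h3 := mul_le_mul_of_nonneg_left h2 hK.le
        have h4 : 0 < d * (e + 2 * C) := by positivity
        rw [hR]
        nlinarith
      refine (hval _ (by positivity) h1).trans ?_
      rw [hsq, Real.sqrt_mul hK.le, Real.sqrt_sq hτ.le]
      have h5 : B * (Real.sqrt K * d) * (τ / d) = B * (Real.sqrt K * τ) := by field_simp
      rw [h5]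
    · apply msup_mono hE hne hv (by positivity)
      have h1 : C * ρ = e * d * s ^ 2 / 2 := by linarith
      have h2 : C * ρ / s = e * d * s / 2 := by
        rw [h1]; field_simp
      rw [h2, h1]
      have h3 : e * d * s ^ 2 / 2 ≤ e * d / 2 := by
        have : 0 < e * d := by positivity
        nlinarith
      have h4 : e * d * s / 2 ≤ e * d / 2 := by
        have : 0 < e * d := by positivity
        nlinarith
      have h5 : 0 < 4 * K * d ^ 2 + ρ₁ := by positivity
      rw [hR]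
      nlinarith

end Pool.Agent.H32.PR
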