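import Pool.Agent.H32.PR.C1
import Pool.Agent.H32.PR.Unif
import Pool.Agent.H32.PR.Hol
import Pool.Agent.H32.PR.Sharp

/-!
# Regularity of compact sets with interior cones, with the order
-/

set_option autoImplicit false

open Set Filter Topology Metric Complex Pool.Agent.H40.Pluri

namespace Pool.Agent.H32.PR

variable {X : Type*} [NormedAddCommGroup X] [InnerProductSpace ℂ X] [FiniteDimensional ℂ X]

/-- from the uniform bound to the Hölder continuity of `V = V^*` -/
theorem holder_of_ub {E : Set X} (hE : IsCompact E) (hne : E.Nonempty) {α : ℝ} (hα : 0 < α)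
    (h : UB E α) :
    (∀ z, greenV E z = (W E z : EReal) ∧ greenVStar E z = (W E z : EReal)) ∧
      Continuous (W E) ∧ ∃ A : ℝ, ∀ z w, |W E z - W E w| ≤ A * ‖z - w‖ ^ α := by
  obtain ⟨h1, A, h2⟩ := green_of_ub hE hne hα h
  have hc : Continuous (W E) := continuous_of_holder _ A α hα h2
  refine ⟨fun z => ⟨h1 z, ?_⟩, hc, A, h2⟩
  have h3 : greenV E = fun z => ((W E z : ℝ) : EReal) := funext h1
  unfold greenVStar
  rw [h3]
  exact (EReal.continuous_coe_iff.2 hc).continuousAt.tendsto.limsup_eq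

theorem cones_small {M E : Set X} {m : ℕ} (hm : 1 ≤ m) (hM : IsSubmanifold m M)
    (hG : IsGeneric M) (hE : IsCompact E) (hne : E.Nonempty) (hEM : E ⊆ M)
    (hcones : HasCones M E) {α : ℝ} (hα : 0 < α) (hα1 : α < 1 / 2) :
    (∀ z, greenV E z = (W E z : EReal) ∧ greenVStar E z = (W E z : EReal)) ∧
      Continuous (W E) ∧ ∃ A : ℝ, ∀ z w, |W E z - W E w| ≤ A * ‖z - w‖ ^ α := by
  obtain ⟨C, e, hC, he, hP⟩ := flat_small hm hM hG hEM hcones hE
  exact holder_of_ub hE hne hα (ub_small hE hne hC he hP hα hα1)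

theorem cones_half {M E : Set X} {m : ℕ} (hm : 2 ≤ m) (hM : IsSubmanifold m M)
    (hG : IsGeneric M) (hE : IsCompact E) (hne : E.Nonempty) (hEM : E ⊆ M)
    (hcones : HasCones M E) :
    (∀ z, greenV E z = (W E z : EReal) ∧ greenVStar E z = (W E z : EReal)) ∧
      Continuous (W E) ∧ ∃ A : ℝ, ∀ z w, |W E z - W E w| ≤ A * ‖z - w‖ ^ (1 / 2 : ℝ) := by
  obtain ⟨C, e, K, δ, hC, he, hK, hδ, hF⟩ := flat_sq hm hM hG hEM hcones hE
  exact holder_of_ub hE hne (by norm_num) (ub_half hE hne hC he hδ hK hF)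

end Pool.Agent.H32.PR
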