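import Pool.Agent.H32.PR.Half
import Pool.Agent.H32.PR.Abs

/-!
# The one step estimate

`msup E v σ` is the supremum of `v` over the closed `σ`-neighbourhood of `E`. `Flat E C e δ err`: at every point `p` of `E` and every scale `t ≤ δ` the generic cone `p + t ν + {f ∈ T : ‖f‖ ≤ e t}` lies in the `err t`-neighbourhood of `E`.
-/

set_option autoImplicit false

open Set Filter Topology Metric Real Complex ComplexConjugate Pool.Agent.H40.Pluri

namespace Pool.Agent.H32.PR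

variable {X : Type*} [NormedAddCommGroup X] [InnerProductSpace ℂ X]

/-- generic cones of `E` up to the error `err t` at the scale `t` -/
def Flat (E : Set X) (C e δ : ℝ) (err : ℝ → ℝ) : Prop :=
  ∀ p ∈ E, ∃ (T : Submodule ℝ X) (ν : X), ‖ν‖ ≤ C ∧
    (∀ w : X, ∃ x ∈ T, ∃ y ∈ T, w = x + I • y ∧ ‖x‖ ≤ C * ‖w‖ ∧ ‖y‖ ≤ C * ‖w‖) ∧
    ∀ t : ℝ, 0 ≤ t → t ≤ δ → ∀ f ∈ T, ‖f‖ ≤ e * t → ∃ q ∈ E, ‖p + (t : ℂ) • ν + f - q‖ ≤ err t

/-- the supremum of `v` over the closed `σ`-neighbourhood of `E` -/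
noncomputable def msup (E : Set X) (v : X → ℝ) (σ : ℝ) : ℝ := sSup (v '' cthickening σ E)

section
variable [FiniteDimensional ℂ X] {E : Set X} {v : X → ℝ}

lemma msup_ge (hE : IsCompact E) (hv : Good E v) {σ : ℝ} {z p : X} (hp : p ∈ E)
    (hz : ‖z - p‖ ≤ σ) : v z ≤ msup E v σ := by
  have : ProperSpace X := FiniteDimensional.proper ℂ X
  have hb : BddAbove (v '' cthickening σ E) :=
    (hv.usc.upperSemicontinuousOn _).bddAbove_of_isCompact hE.cthickening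
  exact le_csSup hb ⟨z, mem_cthickening_of_dist_le z p σ E hp (by rwa [dist_eq_norm]), rfl⟩

lemma msup_le (hE : IsCompact E) (hne : E.Nonempty) {σ a : ℝ} (hσ : 0 ≤ σ)
    (h : ∀ z, ∀ p ∈ E, ‖z - p‖ ≤ σ → v z ≤ a) : msup E v σ ≤ a := by
  apply csSup_le ((hne.mono (self_subset_cthickening E)).image v)
  rintro _ ⟨z, hz, rfl⟩
  rw [hE.cthickening_eq_biUnion_closedBall hσ] at hz
  simp only [mem_iUnion, exists_prop] at hz
  obtain ⟨p, hp, hzp⟩ := hz
  exact h z p hp (by rwa [mem_closedBall, dist_eq_norm] at hzp)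

lemma msup_nonneg (hE : IsCompact E) (hne : E.Nonempty) (hv : Good E v) {σ : ℝ} (hσ : 0 ≤ σ) :
    0 ≤ msup E v σ := by
  obtain ⟨p, hp⟩ := hne
  exact (hv.nonneg p).trans (msup_ge hE hv hp (by simpa using hσ))

lemma msup_mono (hE : IsCompact E) (hne : E.Nonempty) (hv : Good E v) {σ τ : ℝ} (hσ : 0 ≤ σ)
    (h : σ ≤ τ) : msup E v σ ≤ msup E v τ :=
  msup_le hE hne hσ fun _ _ hp hz => msup_ge hE hv hp (hz.trans h)

lemma msup_lim (hE : IsCompact E) (hne : E.Nonempty) (hv : Good E v) :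
    ∀ η > 0, ∃ ε₀ > 0, ∀ ε, 0 < ε → ε ≤ ε₀ → msup E v ε ≤ η := by
  intro η hη
  have hopen : IsOpen (v ⁻¹' Iio η) := hv.usc.isOpen_preimage _
  obtain ⟨δ', hδ'0, hδ'⟩ := hE.exists_cthickening_subset_open hopen (fun z hz => by
    have := hv.onE z hz
    simp only [mem_preimage, mem_Iio]
    linarith)
  refine ⟨δ', hδ'0, fun ε hε hεδ => ?_⟩
  refine msup_le hE hne hε.le fun z p hp hz => ?_
  have h1 : z ∈ cthickening δ' E :=
    mem_cthickening_of_dist_le z p δ' E hp (by rw [dist_eq_norm]; exact hz.trans hεδ)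
  have := hδ' h1
  simp only [mem_preimage, mem_Iio] at this
  exact this.le

theorem step (hE : IsCompact E) (hne : E.Nonempty) {C e δ : ℝ} {err : ℝ → ℝ}
    (hF : Flat E C e δ err) (hC : 0 < C) (he : 0 < e) (hv : Good E v) {ρ d s a b A : ℝ}
    (hρ : 0 < ρ) (hd : 0 < d) (hs0 : 0 < s) (hs1 : s ≤ 1) (hdδ : 2 * d ≤ δ)
    (hed : e * d * s ^ 2 = 2 * C * ρ) (hab : a ≤ b) (hA : 0 ≤ A)
    (hflat : ∀ τ, 0 < τ → τ ≤ 2 * d → msup E v (err τ) ≤ a + A * (τ / d))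
    (harc : msup E v (C * ρ + 2 * d * C + C * ρ / s) ≤ b) :
    msup E v ρ ≤ a + 2 * s * (b - a + A) := by
  apply msup_le hE hne hρ.le
  intro z p hp hzp
  obtain ⟨T, ν, hν, hdec, hcone⟩ := hF p hp
  obtain ⟨x, hx, y, hy, hw, hxn, hyn⟩ := hdec (z - p)
  have hxρ : ‖x‖ ≤ C * ρ := hxn.trans (mul_le_mul_of_nonneg_left hzp hC.le)
  have hyρ : ‖y‖ ≤ C * ρ := hyn.trans (mul_le_mul_of_nonneg_left hzp hC.le)
  have hz' : z = p + x + I • y := by
    have : z = p + (z - p) := by abel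
    rw [this, hw]; abel
  rw [hz']
  apply halfDisc2 v hv.usc hv.sm p x y ν s d a b A hs0 hs1 hab hA
  · intro t ht
    have ht2 : t ^ 2 ≤ 1 := by
      rw [← sq_abs]
      nlinarith [abs_nonneg t]
    set τ : ℝ := d * (s ^ 2 + t ^ 2) with hτ
    have hs21 : s ^ 2 ≤ 1 := by nlinarith
    have hτ0 : 0 < τ := by positivity
    have hτ1 : τ ≤ 2 * d := by
      rw [hτ]
      nlinarith
    have hf : x + ((t / s : ℝ) : ℂ) • y ∈ T := by
      apply T.add_mem hx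
      have := T.smul_mem (t / s) hy
      rwa [← Complex.coe_smul] at this
    have hfn : ‖x + ((t / s : ℝ) : ℂ) • y‖ ≤ e * τ := by
      have h1 : ‖x + ((t / s : ℝ) : ℂ) • y‖ ≤ C * ρ + |t| / s * (C * ρ) := by
        refine (norm_add_le _ _).trans ?_
        apply add_le_add hxρ
        rw [norm_smul, norm_real, norm_eq_abs, abs_div, abs_of_pos hs0]
        exact mul_le_mul_of_nonneg_left hyρ (by positivity)
      have h2 : e * τ = 2 * C * ρ * (1 + (|t| / s) ^ 2) := by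
        have : e * τ = (e * d * s ^ 2) * (1 + (t / s) ^ 2) := by
          rw [hτ]; field_simp
        rw [this, hed, div_pow, div_pow, sq_abs]
      rw [h2]
      have h3 : |t| / s ≤ (1 + (|t| / s) ^ 2) / 2 := by nlinarith [sq_nonneg (|t| / s - 1)]
      have h4 : 0 < C * ρ := by positivity
      refine h1.trans ?_
      nlinarith [mul_le_mul_of_nonneg_left h3 h4.le, sq_nonneg (|t| / s)]
    obtain ⟨q', hq', hqn⟩ := hcone τ hτ0.le (hτ1.trans hdδ) _ hf hfn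
    have e1 : p + x + (τ : ℂ) • ν + ((t / s : ℝ) : ℂ) • y - q' =
        p + (τ : ℂ) • ν + (x + ((t / s : ℝ) : ℂ) • y) - q' := by abel
    have h5 : v (p + x + (τ : ℂ) • ν + ((t / s : ℝ) : ℂ) • y) ≤ msup E v (err τ) :=
      msup_ge hE hv hq' (by rw [e1]; exact hqn)
    have h6 := hflat τ hτ0 hτ1
    have h7 : τ / d = s ^ 2 + t ^ 2 := by rw [hτ]; field_simp
    rw [h7] at h6
    exact h5.trans h6
  · intro ζ hζ
    refine le_trans (msup_ge hE hv hp ?_) harc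
    have e1 : p + x + ((d : ℂ) * (s ^ 2 + ζ ^ 2)) • ν + (ζ / s) • y - p =
        x + ((d : ℂ) * (s ^ 2 + ζ ^ 2)) • ν + (ζ / s) • y := by abel
    rw [e1]
    have h1 : ‖((d : ℂ) * (s ^ 2 + ζ ^ 2)) • ν‖ ≤ 2 * d * C := by
      rw [norm_smul, norm_mul, norm_real, norm_eq_abs, abs_of_pos hd]
      have h2 : ‖(s : ℂ) ^ 2 + ζ ^ 2‖ ≤ 2 := by
        refine (norm_add_le _ _).trans ?_
        rw [norm_pow, norm_pow, hζ, norm_real, norm_eq_abs, abs_of_pos hs0]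
        nlinarith
      calc d * ‖(s : ℂ) ^ 2 + ζ ^ 2‖ * ‖ν‖ ≤ d * 2 * C := by gcongr
        _ = 2 * d * C := by ring
    have h2 : ‖(ζ / s) • y‖ ≤ C * ρ / s := by
      rw [norm_smul, norm_div, hζ, norm_real, norm_eq_abs, abs_of_pos hs0]
      calc 1 / s * ‖y‖ ≤ 1 / s * (C * ρ) := by gcongr
        _ = C * ρ / s := by ring
    exact (norm_add_le _ _).trans (add_le_add ((norm_add_le _ _).trans (add_le_add hxρ h1)) h2)

/-- uniform Hölder bound near `E` -/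
def UB (E : Set X) (α : ℝ) : Prop :=
  ∃ R B : ℝ, 0 < R ∧ 0 ≤ B ∧ ∀ v, Good E v → ∀ ρ, 0 < ρ → ρ ≤ R → msup E v ρ ≤ B * ρ ^ α

/-- the bound with the factor `msup E v R` is uniform, by the growth lemma -/
theorem ub_of (hE : IsCompact E) (hne : E.Nonempty) {α R C₂ : ℝ} (hα : 0 < α) (hR : 0 < R)
    (hC₂ : 0 ≤ C₂)
    (h : ∀ v, Good E v → ∀ ρ, 0 < ρ → ρ ≤ R → msup E v ρ ≤ C₂ * msup E v R * ρ ^ α) :
    UB E α := by
  obtain ⟨ρ₂, hρ₂0, hρ₂R, hρ₂⟩ : ∃ ρ₂, 0 < ρ₂ ∧ ρ₂ ≤ R ∧ C₂ * ρ₂ ^ α ≤ 1 / 2 := by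
    have h1 : Tendsto (fun x : ℝ => C₂ * x ^ α) (𝓝[>] 0) (𝓝 (C₂ * 0 ^ α)) :=
      (((Real.continuousAt_rpow_const 0 α (Or.inr hα.le)).tendsto.const_mul C₂)).mono_left
        nhdsWithin_le_nhds
    rw [Real.zero_rpow hα.ne', mul_zero] at h1
    have h2 := h1.eventually (Iio_mem_nhds (by norm_num : (0 : ℝ) < 1 / 2))
    obtain ⟨ρ₂, h3, h4⟩ := (h2.and (Ioc_mem_nhdsGT hR)).exists
    exact ⟨ρ₂, h4.1, h4.2, h3.le⟩
  refine ⟨R, C₂ * (2 * Real.log (R / ρ₂)), hR, ?_, fun v hv ρ hρ hρR => ?_⟩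
  · have h1 : 0 ≤ Real.log (R / ρ₂) := Real.log_nonneg (by rw [le_div_iff₀ hρ₂0]; linarith)
    positivity
  · have hlog : 0 ≤ Real.log (R / ρ₂) := Real.log_nonneg (by rw [le_div_iff₀ hρ₂0]; linarith)
    have hmR : 0 ≤ msup E v R := msup_nonneg hE hne hv hR.le
    have h1 : msup E v R ≤ msup E v ρ₂ + Real.log (R / ρ₂) := by
      apply msup_le hE hne hR.le
      intro z p hp hzp
      rcases le_or_gt ‖z - p‖ ρ₂ with h2 | h2
      · linarith [msup_ge hE hv hp h2]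
      · obtain ⟨Cv, hCv⟩ := hv.gr
        have h3 := growth v hv.usc hv.sm Cv hCv p ρ₂ (msup E v ρ₂) hρ₂0
          (fun w hw => msup_ge hE hv hp (by rwa [mem_closedBall, dist_eq_norm] at hw)) z h2.le
        have h4 : Real.log (‖z - p‖ / ρ₂) ≤ Real.log (R / ρ₂) := by
          apply Real.log_le_log (div_pos (hρ₂0.trans h2) hρ₂0)
          gcongr
        linarith
    have h2 := h v hv ρ₂ hρ₂0 hρ₂R
    have h3 : C₂ * msup E v R * ρ₂ ^ α ≤ msup E v R / 2 := by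
      have := mul_le_mul_of_nonneg_right hρ₂ hmR
      linarith
    have h4 : msup E v R ≤ 2 * Real.log (R / ρ₂) := by linarith
    refine (h v hv ρ hρ hρR).trans ?_
    have h5 : 0 ≤ ρ ^ α := Real.rpow_nonneg hρ.le α
    exact mul_le_mul_of_nonneg_right (mul_le_mul_of_nonneg_left h4 hC₂) h5

end

end Pool.Agent.H32.PR
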